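import Pool.Agent.Helper86.MaxNorm.Kappa

open scoped Matrix

noncomputable section

namespace Pool.Agent.Helper86.MaxNorm

section Basic

variable {p : ℕ} [Fact p.Prime] {d : ℕ} {K : Type} [NormedField K]

/-- uniform local constancy and bounded support. -/
theorem exists_level (f : Sch p d K) : ∃ n : ℕ,
    (∀ x : Fin d → ℚ_[p], (∃ i, (p : ℝ) ^ n < ‖x i‖) → (f : (Fin d → ℚ_[p]) → K) x = 0) ∧
    (∀ x h : Fin d → ℚ_[p], (∀ i, ‖h i‖ ≤ ((p : ℝ)⁻¹) ^ n) →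
      (f : (Fin d → ℚ_[p]) → K) (x + h) = (f : (Fin d → ℚ_[p]) → K) x) := by
  have hp1 : (1 : ℝ) < p := by exact_mod_cast (Fact.out : p.Prime).one_lt
  obtain ⟨f, hlc, hcs⟩ := f
  simp only
  -- support
  obtain ⟨R, hR⟩ := hcs.isBounded.exists_norm_le
  obtain ⟨n₁, hn₁⟩ := pow_unbounded_of_one_lt R hp1
  -- Lebesgue number
  obtain ⟨δ, hδ, hL⟩ := lebesgue_number_lemma_of_metric (s := tsupport f) (c := fun c : K => f ⁻¹' {c})
    hcs (fun c => hlc.isOpen_fiber c) (by intro x _; simp)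
  obtain ⟨n₂, hn₂⟩ := exists_pow_lt_of_lt_one hδ (inv_lt_one_of_one_lt₀ hp1)
  have key : ∀ n, n₂ ≤ n → ∀ x h : Fin d → ℚ_[p], (∀ i, ‖h i‖ ≤ ((p : ℝ)⁻¹) ^ n) →
      x ∈ tsupport f → f (x + h) = f x := by
    intro n hn x h hh hx
    obtain ⟨c, hc⟩ := hL x hx
    have h1 : f x = c := hc (Metric.mem_ball_self hδ)
    have h2 : x + h ∈ Metric.ball x δ := by
      rw [mem_ball_iff_norm, add_sub_cancel_left]
      refine lt_of_le_of_lt ?_ hn₂
      rw [pi_norm_le_iff_of_nonneg (by positivity)]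
      intro i
      exact (hh i).trans (pow_le_pow_of_le_one (by positivity) (inv_le_one_of_one_le₀ hp1.le) hn)
    have h3 : f (x + h) = c := hc h2
    rw [h1, h3]
  refine ⟨max n₁ n₂, ?_, ?_⟩
  · rintro x ⟨i, hi⟩
    by_contra hne
    have hx : x ∈ tsupport f := subset_tsupport f hne
    have h1 := hR x hx
    have h2 := norm_le_pi_norm x i
    have h3 : (p : ℝ) ^ n₁ ≤ (p : ℝ) ^ (max n₁ n₂) := pow_le_pow_right₀ hp1.le (le_max_left _ _)
    linarith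
  · intro x h hh
    by_cases hx : x ∈ tsupport f
    · exact key _ (le_max_right _ _) x h hh hx
    · by_cases hxh : x + h ∈ tsupport f
      · have h1 := key _ (le_max_right _ _) (x + h) (-h) (by intro i; simpa using hh i) hxh
        rw [add_neg_cancel_right] at h1
        exact h1.symm
      · rw [image_eq_zero_of_notMem_tsupport hx, image_eq_zero_of_notMem_tsupport hxh]

theorem level_mono (f : Sch p d K) {n m : ℕ} (hnm : n ≤ m)
    (h1 : ∀ x : Fin d → ℚ_[p], (∃ i, (p : ℝ) ^ n < ‖x i‖) → (f : (Fin d → ℚ_[p]) → K) x = 0)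
    (h2 : ∀ x h : Fin d → ℚ_[p], (∀ i, ‖h i‖ ≤ ((p : ℝ)⁻¹) ^ n) →
      (f : (Fin d → ℚ_[p]) → K) (x + h) = (f : (Fin d → ℚ_[p]) → K) x) :
    (∀ x : Fin d → ℚ_[p], (∃ i, (p : ℝ) ^ m < ‖x i‖) → (f : (Fin d → ℚ_[p]) → K) x = 0) ∧
    (∀ x h : Fin d → ℚ_[p], (∀ i, ‖h i‖ ≤ ((p : ℝ)⁻¹) ^ m) →
      (f : (Fin d → ℚ_[p]) → K) (x + h) = (f : (Fin d → ℚ_[p]) → K) x) := by
  have hp1 : (1 : ℝ) < p := by exact_mod_cast (Fact.out : p.Prime).one_lt
  constructor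
  · rintro x ⟨i, hi⟩
    exact h1 x ⟨i, lt_of_le_of_lt (pow_le_pow_right₀ hp1.le hnm) hi⟩
  · intro x h hh
    exact h2 x h fun i => (hh i).trans
      (pow_le_pow_of_le_one (by positivity) (inv_le_one_of_one_le₀ hp1.le) hnm)

/-- the points `k/p^m`. -/
def pt (p : ℕ) [Fact p.Prime] (d m N : ℕ) (k : Fin d → Fin (p ^ (m + N))) : Fin d → ℚ_[p] :=
  fun i => ((k i : ℕ) : ℚ_[p]) / (p : ℚ_[p]) ^ m

theorem exists_pt (m N : ℕ) (x : Fin d → ℚ_[p]) (hx : ∀ i, ‖x i‖ ≤ (p : ℝ) ^ m) :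
    ∃ k : Fin d → Fin (p ^ (m + N)), ∀ i, ‖x i - pt p d m N k i‖ ≤ ((p : ℝ)⁻¹) ^ N := by
  have hpr : (0 : ℝ) < p := by exact_mod_cast (Fact.out : p.Prime).pos
  have hp0 : (p : ℚ_[p]) ≠ 0 := by exact_mod_cast (Fact.out : p.Prime).ne_zero
  have h1 : ∀ i, ‖(p : ℚ_[p]) ^ m * x i‖ ≤ 1 := by
    intro i
    rw [norm_mul, norm_pow, Padic.norm_p, inv_pow, inv_mul_le_iff₀ (by positivity), mul_one]
    exact hx i
  choose k hk hk' using fun i => exists_nat_approx _ (h1 i) (m + N)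
  refine ⟨fun i => ⟨k i, hk i⟩, fun i => ?_⟩
  have h2 : x i - pt p d m N (fun i => ⟨k i, hk i⟩) i =
      ((p : ℚ_[p]) ^ m * x i - (k i : ℚ_[p])) / (p : ℚ_[p]) ^ m := by
    simp only [pt]
    field_simp
  rw [h2, norm_div, norm_pow, Padic.norm_p, div_le_iff₀ (by positivity), ← pow_add, add_comm N m]
  exact hk' i

theorem pt_unique (m N : ℕ) (x : Fin d → ℚ_[p]) (k k' : Fin d → Fin (p ^ (m + N)))
    (hk : ∀ i, ‖x i - pt p d m N k i‖ ≤ ((p : ℝ)⁻¹) ^ N)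
    (hk' : ∀ i, ‖x i - pt p d m N k' i‖ ≤ ((p : ℝ)⁻¹) ^ N) : k = k' := by
  have hpr : (0 : ℝ) < p := by exact_mod_cast (Fact.out : p.Prime).pos
  have hp0 : (p : ℚ_[p]) ≠ 0 := by exact_mod_cast (Fact.out : p.Prime).ne_zero
  funext i
  apply Fin.ext
  have h1 : ‖((((k i : ℕ) : ℤ) - ((k' i : ℕ) : ℤ) : ℤ) : ℚ_[p])‖ ≤ (p : ℝ) ^ (-((m + N : ℕ) : ℤ)) := by
    have h2 : ((((k i : ℕ) : ℤ) - ((k' i : ℕ) : ℤ) : ℤ) : ℚ_[p]) =
        (p : ℚ_[p]) ^ m * ((x i - pt p d m N k' i) - (x i - pt p d m N k i)) := by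
      simp only [pt]
      push_cast
      field_simp
      ring
    rw [h2, norm_mul, norm_pow, Padic.norm_p, zpow_neg, zpow_natCast, ← inv_pow, pow_add]
    apply mul_le_mul_of_nonneg_left _ (by positivity)
    rw [sub_eq_add_neg]
    refine (IsUltrametricDist.norm_add_le_max _ _).trans (max_le (hk' i) ?_)
    rw [norm_neg]
    exact hk i
  have h4 := (Padic.norm_int_le_pow_iff_dvd (p := p) _ (m + N)).1 h1
  have h5 : ((k i : ℕ) : ℤ) ≡ ((k' i : ℕ) : ℤ) [ZMOD ((p ^ (m + N) : ℕ) : ℤ)] := by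
    apply Int.ModEq.symm
    rw [Int.modEq_iff_dvd]
    exact_mod_cast h4
  have h6 : (k i : ℕ) ≡ (k' i : ℕ) [MOD (p ^ (m + N))] := (Int.natCast_modEq_iff).1 h5
  exact Nat.ModEq.eq_of_lt_of_lt h6 (k i).2 (k' i).2

open Classical in
/-- decomposition over the cosets of a polydisc. -/
theorem sum_cosets (m N : ℕ) (x : Fin d → ℚ_[p]) (z : K)
    (hz : (∃ i, (p : ℝ) ^ m < ‖x i‖) → z = 0) :
    ∑ k : Fin d → Fin (p ^ (m + N)),
      (if ∀ i, ‖x i - pt p d m N k i‖ ≤ ((p : ℝ)⁻¹) ^ N then z else 0) = z := by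
  by_cases hx : ∀ i, ‖x i‖ ≤ (p : ℝ) ^ m
  · obtain ⟨k, hk⟩ := exists_pt m N x hx
    rw [Finset.sum_eq_single k]
    · rw [if_pos hk]
    · intro k' _ hne
      rw [if_neg]
      intro hk'
      exact hne (pt_unique m N x k' k hk' hk)
    · intro h; exact absurd (Finset.mem_univ k) h
  · push Not at hx
    rw [hz hx]
    simp

theorem rho_apply (ψ : AddChar ℚ_[p] K) (hψ : IsOpen {x : ℚ_[p] | ψ x = 1})
    (w : Fin d ⊕ Fin d → ℚ_[p]) (t : ℚ_[p]) (f : Sch p d K) (x : Fin d → ℚ_[p]) :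
    (rho ψ hψ w t f : (Fin d → ℚ_[p]) → K) x =
      ψ (t + (1 / 2) * ((w ∘ Sum.inl) ⬝ᵥ (w ∘ Sum.inr))) * ψ ((w ∘ Sum.inr) ⬝ᵥ x) *
        (f : (Fin d → ℚ_[p]) → K) (x + w ∘ Sum.inl) := rfl

theorem rho_trans (ψ : AddChar ℚ_[p] K) (hψ : IsOpen {x : ℚ_[p] | ψ x = 1})
    (a : Fin d → ℚ_[p]) (f : Sch p d K) (x : Fin d → ℚ_[p]) :
    (rho ψ hψ (Sum.elim a 0) 0 f : (Fin d → ℚ_[p]) → K) x = (f : (Fin d → ℚ_[p]) → K) (x + a) := by
  rw [rho_apply]
  simp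

theorem rho_mod (ψ : AddChar ℚ_[p] K) (hψ : IsOpen {x : ℚ_[p] | ψ x = 1})
    (b : Fin d → ℚ_[p]) (f : Sch p d K) (x : Fin d → ℚ_[p]) :
    (rho ψ hψ (Sum.elim 0 b) 0 f : (Fin d → ℚ_[p]) → K) x =
      ψ (b ⬝ᵥ x) * (f : (Fin d → ℚ_[p]) → K) x := by
  rw [rho_apply]
  simp

/-- products of the operators `ρ`. -/
theorem rho_rho (ψ : AddChar ℚ_[p] K) (hψ : IsOpen {x : ℚ_[p] | ψ x = 1})
    (w w' : Fin d ⊕ Fin d → ℚ_[p]) (t t' : ℚ_[p]) (f : Sch p d K) :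
    rho ψ hψ w t (rho ψ hψ w' t' f) =
      ψ (t + t' + (1 / 2) * ((w ∘ Sum.inl) ⬝ᵥ (w' ∘ Sum.inr) - (w ∘ Sum.inr) ⬝ᵥ (w' ∘ Sum.inl))) •
        rho ψ hψ (w + w') 0 f := by
  apply Subtype.ext
  funext x
  rw [Submodule.coe_smul, Pi.smul_apply, rho_apply, rho_apply, rho_apply, smul_eq_mul]
  have e1 : (w + w') ∘ Sum.inl = w ∘ Sum.inl + w' ∘ Sum.inl := rfl
  have e2 : (w + w') ∘ Sum.inr = w ∘ Sum.inr + w' ∘ Sum.inr := rfl
  rw [e1, e2, add_assoc x]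
  set a := w ∘ Sum.inl
  set b := w ∘ Sum.inr
  set a' := w' ∘ Sum.inl
  set b' := w' ∘ Sum.inr
  set F := (f : (Fin d → ℚ_[p]) → K) (x + (a + a'))
  have key : ∀ u v r s : ℚ_[p], ∀ G : K, ψ u * ψ v * (ψ r * ψ s * G) = ψ (u + v + r + s) * G := by
    intro u v r s G
    rw [AddChar.map_add_eq_mul, AddChar.map_add_eq_mul, AddChar.map_add_eq_mul]; ring
  have key2 : ∀ u r s : ℚ_[p], ∀ G : K, ψ u * (ψ r * ψ s * G) = ψ (u + r + s) * G := by
    intro u r s G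
    rw [AddChar.map_add_eq_mul, AddChar.map_add_eq_mul]; ring
  rw [key, key2]
  congr 2
  simp only [dotProduct_add, add_dotProduct]
  rw [dotProduct_comm b' a, dotProduct_comm b a']
  ring

end Basic

section SupNorm

variable {p : ℕ} [Fact p.Prime] {d : ℕ} {K : Type} [NormedField K]

theorem bddAbove_norm (f : Sch p d K) :
    BddAbove (Set.range fun x : Fin d → ℚ_[p] => ‖(f : (Fin d → ℚ_[p]) → K) x‖) := by
  obtain ⟨C, hC⟩ := f.2.2.exists_bound_of_continuous f.2.1.continuous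
  exact ⟨C, by rintro _ ⟨x, rfl⟩; exact hC x⟩

theorem le_supNorm (f : Sch p d K) (x : Fin d → ℚ_[p]) :
    ‖(f : (Fin d → ℚ_[p]) → K) x‖ ≤ supNorm f := le_ciSup (bddAbove_norm f) x

theorem supNorm_le (f : Sch p d K) (B : ℝ) (h : ∀ x, ‖(f : (Fin d → ℚ_[p]) → K) x‖ ≤ B) :
    supNorm f ≤ B := ciSup_le h

theorem supNorm_nonneg (f : Sch p d K) : 0 ≤ supNorm f :=
  (norm_nonneg _).trans (le_supNorm f 0)

theorem supNorm_smul (c : K) (f : Sch p d K) : supNorm (c • f) = ‖c‖ * supNorm f := by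
  apply le_antisymm
  · apply supNorm_le
    intro x
    rw [Submodule.coe_smul, Pi.smul_apply, norm_smul]
    exact mul_le_mul_of_nonneg_left (le_supNorm f x) (norm_nonneg _)
  · by_cases hc : c = 0
    · rw [hc, norm_zero, zero_mul]; exact supNorm_nonneg _
    · have hc' : 0 < ‖c‖ := norm_pos_iff.2 hc
      rw [← le_div_iff₀' hc']
      apply supNorm_le
      intro x
      rw [le_div_iff₀' hc', ← norm_smul]
      exact le_supNorm (c • f) x

theorem supNorm_eq_zero (f : Sch p d K) (h : supNorm f = 0) : f = 0 := by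
  apply Subtype.ext
  funext x
  have h1 := le_supNorm f x
  rw [h] at h1
  exact norm_le_zero_iff.1 h1

theorem supNorm_add_le [IsUltrametricDist K] (f g : Sch p d K) :
    supNorm (f + g) ≤ max (supNorm f) (supNorm g) := by
  apply supNorm_le
  intro x
  rw [Submodule.coe_add, Pi.add_apply]
  exact (IsUltrametricDist.norm_add_le_max _ _).trans (max_le_max (le_supNorm f x) (le_supNorm g x))

theorem supNorm_rho (ψ : AddChar ℚ_[p] K) (hψ : IsOpen {x : ℚ_[p] | ψ x = 1})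
    (w : Fin d ⊕ Fin d → ℚ_[p]) (t : ℚ_[p]) (f : Sch p d K) :
    supNorm (rho ψ hψ w t f) = supNorm f := by
  apply le_antisymm
  · apply supNorm_le
    intro x
    rw [rho_apply, norm_mul, norm_mul, norm_char ψ hψ, norm_char ψ hψ, one_mul, one_mul]
    exact le_supNorm f _
  · apply supNorm_le
    intro x
    have h1 := le_supNorm (rho ψ hψ w t f) (x - w ∘ Sum.inl)
    rw [rho_apply, norm_mul, norm_mul, norm_char ψ hψ, norm_char ψ hψ, one_mul, one_mul,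
      sub_add_cancel] at h1
    exact h1

theorem one_apply_of_mem (x : Fin d → ℚ_[p]) (hx : ∀ i, ‖x i‖ ≤ 1) :
    (one p d K : (Fin d → ℚ_[p]) → K) x = 1 := by
  show Set.indicator {x : Fin d → ℚ_[p] | ∀ i, ‖x i‖ ≤ 1} (fun _ => (1 : K)) x = 1
  exact Set.indicator_of_mem (s := {x : Fin d → ℚ_[p] | ∀ i, ‖x i‖ ≤ 1}) hx (fun _ => (1 : K))

theorem one_apply_of_notMem (x : Fin d → ℚ_[p]) (hx : ¬ ∀ i, ‖x i‖ ≤ 1) :
    (one p d K : (Fin d → ℚ_[p]) → K) x = 0 := by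
  show Set.indicator {x : Fin d → ℚ_[p] | ∀ i, ‖x i‖ ≤ 1} (fun _ => (1 : K)) x = 0
  exact Set.indicator_of_notMem (s := {x : Fin d → ℚ_[p] | ∀ i, ‖x i‖ ≤ 1}) hx (fun _ => (1 : K))

theorem one_ne_zero' : one p d K ≠ 0 := by
  intro h
  have h1 := one_apply_of_mem (K := K) (0 : Fin d → ℚ_[p]) (by simp)
  rw [h] at h1
  simp at h1

theorem supNorm_one : supNorm (one p d K) = 1 := by
  apply le_antisymm
  · apply supNorm_le
    intro x
    by_cases hx : ∀ i, ‖x i‖ ≤ 1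
    · rw [one_apply_of_mem x hx, norm_one]
    · rw [one_apply_of_notMem x hx, norm_zero]; exact zero_le_one
  · have h1 := le_supNorm (one p d K) 0
    rwa [one_apply_of_mem _ (by simp), norm_one] at h1

end SupNorm

end Pool.Agent.Helper86.MaxNorm
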