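import Pool.Agent.Helper86.MaxNorm.Defs

open scoped Matrix

noncomputable section

namespace Pool.Agent.Helper86.MaxNorm

theorem isLocallyConstant_comp_continuous {X Y Z : Type*} [TopologicalSpace X]
    [TopologicalSpace Y] {f : Y → Z} (hf : IsLocallyConstant f) {g : X → Y} (hg : Continuous g) :
    IsLocallyConstant (fun x => f (g x)) := hf.comp_continuous hg


/-! ## The character -/

section Character

variable {p : ℕ} [Fact p.Prime] {K : Type} [NormedField K]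

theorem char_zsmul (ψ : AddChar ℚ_[p] K) (n : ℕ) (x : ℚ_[p]) (hx : ψ x = 1) : ψ (n * x) = 1 := by
  rw [← nsmul_eq_mul, AddChar.map_nsmul_eq_pow, hx, one_pow]

/-- The kernel of a smooth character is stable under multiplication by `ℤ_p`. -/
theorem char_ball (ψ : AddChar ℚ_[p] K) (hψ : IsOpen {x : ℚ_[p] | ψ x = 1}) (x y : ℚ_[p])
    (hx : ψ x = 1) (hy : ‖y‖ ≤ ‖x‖) : ψ y = 1 := by
  by_cases hx0 : x = 0
  · have : y = 0 := by rw [hx0, norm_zero] at hy; exact norm_le_zero_iff.1 hy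
    rw [this, AddChar.map_zero_eq_one]
  -- a small ball lies in the kernel
  obtain ⟨ε, hε, hball⟩ := Metric.isOpen_iff.1 hψ 0 (by simp)
  -- `y = z x`, `z ∈ ℤ_p`
  have hz : ‖y / x‖ ≤ 1 := by
    rw [norm_div, div_le_one (norm_pos_iff.2 hx0)]; exact hy
  set z : ℤ_[p] := ⟨y / x, hz⟩ with hzdef
  have hdense := PadicInt.denseRange_natCast (p := p)
  obtain ⟨n, hn⟩ := hdense.exists_dist_lt z (ε := ε / ‖x‖) (div_pos hε (norm_pos_iff.2 hx0))
  have h1 : ‖y / x - (n : ℚ_[p])‖ < ε / ‖x‖ := by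
    rw [dist_eq_norm] at hn
    have h2 : ‖z - (n : ℤ_[p])‖ = ‖y / x - (n : ℚ_[p])‖ := by
      rw [PadicInt.norm_def, PadicInt.coe_sub, PadicInt.coe_natCast]
    rwa [h2] at hn
  have h3 : ψ (y - n * x) = 1 := by
    apply hball
    rw [mem_ball_zero_iff]
    have h4 : y - n * x = (y / x - n) * x := by field_simp
    rw [h4, norm_mul]
    rwa [lt_div_iff₀ (norm_pos_iff.2 hx0)] at h1
  have h5 : ψ y = ψ (y - n * x) * ψ (n * x) := by rw [← AddChar.map_add_eq_mul, sub_add_cancel]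
  rw [h5, h3, char_zsmul ψ n x hx, one_mul]

/-- The kernel of a nontrivial smooth character is `c ℤ_p`. -/
theorem char_kernel (ψ : AddChar ℚ_[p] K) (hψ : IsOpen {x : ℚ_[p] | ψ x = 1}) (hψ1 : ψ ≠ 1) :
    ∃ c : ℚ_[p], c ≠ 0 ∧ ∀ x : ℚ_[p], ψ (c * x) = 1 ↔ ‖x‖ ≤ 1 := by
  have hp1 : (1 : ℝ) < p := by exact_mod_cast (Fact.out : p.Prime).one_lt
  obtain ⟨y, hy⟩ : ∃ y : ℚ_[p], ψ y ≠ 1 := by
    by_contra hcon
    push Not at hcon
    exact hψ1 (by ext x; simp [hcon x])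
  obtain ⟨ε, hε, hball⟩ := Metric.isOpen_iff.1 hψ 0 (by simp)
  -- the set of integers `k` with `ψ (p^k) = 1`
  have hbdd : ∃ b : ℤ, ∀ z : ℤ, ψ ((p : ℚ_[p]) ^ z) = 1 → b ≤ z := by
    have hy0 : y ≠ 0 := by rintro rfl; simp at hy
    refine ⟨y.valuation, fun z hz => ?_⟩
    by_contra hcon
    push Not at hcon
    apply hy
    apply char_ball ψ hψ _ y hz
    rw [Padic.norm_p_zpow, Padic.norm_eq_zpow_neg_valuation hy0]
    exact zpow_le_zpow_right₀ hp1.le (by omega)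
  have hinh : ∃ z : ℤ, ψ ((p : ℚ_[p]) ^ z) = 1 := by
    obtain ⟨k, hk⟩ := exists_pow_lt_of_lt_one hε (inv_lt_one_of_one_lt₀ hp1)
    refine ⟨k, hball ?_⟩
    rw [mem_ball_zero_iff, Padic.norm_p_zpow]
    rw [inv_pow] at hk
    simpa using hk
  obtain ⟨r, hr, hmin⟩ := Int.exists_least_of_bdd hbdd hinh
  have hp0 : (p : ℚ_[p]) ≠ 0 := by exact_mod_cast (Fact.out : p.Prime).ne_zero
  refine ⟨(p : ℚ_[p]) ^ r, zpow_ne_zero _ hp0, fun x => ⟨fun hx => ?_, fun hx => ?_⟩⟩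
  · by_contra hcon
    push Not at hcon
    have hx0 : x ≠ 0 := by rintro rfl; simp at hcon; linarith
    have hv : x.valuation < 0 := by
      rw [Padic.norm_eq_zpow_neg_valuation hx0] at hcon
      have := (one_lt_zpow_iff_right₀ hp1).1 hcon
      omega
    have h1 : ψ ((p : ℚ_[p]) ^ (r - 1)) = 1 := by
      apply char_ball ψ hψ _ _ hx
      rw [norm_mul, Padic.norm_p_zpow, Padic.norm_p_zpow, Padic.norm_eq_zpow_neg_valuation hx0,
        ← zpow_add₀ (by linarith : (p : ℝ) ≠ 0)]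
      exact zpow_le_zpow_right₀ hp1.le (by omega)
    have := hmin _ h1
    omega
  · apply char_ball ψ hψ _ _ hr
    rw [norm_mul]
    exact mul_le_of_le_one_right (norm_nonneg _) hx

end Character

end Pool.Agent.Helper86.MaxNorm
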