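import Pool.Agent.Helper86.MaxNorm.CharKernel

open scoped Matrix

noncomputable section

namespace Pool.Agent.Helper86.MaxNorm

section Roots

variable {p : ℕ} [Fact p.Prime] {K : Type} [NormedField K]

theorem norm_char (ψ : AddChar ℚ_[p] K) (hψ : IsOpen {x : ℚ_[p] | ψ x = 1}) (x : ℚ_[p]) :
    ‖ψ x‖ = 1 := by
  have hp1 : (1 : ℝ) < p := by exact_mod_cast (Fact.out : p.Prime).one_lt
  obtain ⟨ε, hε, hball⟩ := Metric.isOpen_iff.1 hψ 0 (by simp)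
  have h0 : (0 : ℝ) < ε / (‖x‖ + 1) := by positivity
  obtain ⟨k, hk⟩ := exists_pow_lt_of_lt_one h0 (inv_lt_one_of_one_lt₀ hp1)
  have h1 : ψ ((p ^ k : ℕ) * x) = 1 := by
    apply hball
    rw [mem_ball_zero_iff, norm_mul]
    push_cast
    rw [norm_pow, Padic.norm_p]
    have h2 : (0 : ℝ) ≤ ‖x‖ := norm_nonneg x
    rw [lt_div_iff₀ (by positivity)] at hk
    have h3 : (0 : ℝ) < ((p : ℝ)⁻¹) ^ k := by positivity
    nlinarith
  rw [← nsmul_eq_mul, AddChar.map_nsmul_eq_pow] at h1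
  have h2 : ‖ψ x‖ ^ (p ^ k) = 1 := by rw [← norm_pow, h1, norm_one]
  have hpk : p ^ k ≠ 0 := pow_ne_zero _ (Fact.out : p.Prime).ne_zero
  exact (pow_eq_one_iff_of_nonneg (norm_nonneg _) hpk).1 h2

variable [IsUltrametricDist K]

theorem norm_one_sub_pow_le (ζ : K) (hζ : ‖ζ‖ = 1) (i : ℕ) : ‖1 - ζ ^ i‖ ≤ ‖1 - ζ‖ := by
  rw [← mul_neg_geom_sum ζ i, norm_mul]
  refine mul_le_of_le_one_right (norm_nonneg _) ?_
  apply IsUltrametricDist.norm_sum_le_of_forall_le_of_nonneg zero_le_one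
  intro j _
  rw [norm_pow, hζ, one_pow]

theorem norm_one_sub_primitive (ζ : K) (k : ℕ) (hζ : IsPrimitiveRoot ζ (p ^ (k + 1))) :
    ‖1 - ζ‖ ^ (Nat.totient (p ^ (k + 1))) = ‖(p : K)‖ := by
  have hp : p.Prime := Fact.out
  have hpos : 0 < p ^ (k + 1) := pow_pos hp.pos _
  have hnorm : ∀ μ : K, μ ^ (p ^ (k + 1)) = 1 → ‖μ‖ = 1 := by
    intro μ hμ
    have h2 : ‖μ‖ ^ (p ^ (k + 1)) = 1 := by rw [← norm_pow, hμ, norm_one]
    exact (pow_eq_one_iff_of_nonneg (norm_nonneg _) hpos.ne').1 h2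
  have h1 : Polynomial.eval 1 (Polynomial.cyclotomic (p ^ (k + 1)) K) = p :=
    Polynomial.eval_one_cyclotomic_prime_pow k
  rw [Polynomial.cyclotomic_eq_prod_X_sub_primitiveRoots hζ, Polynomial.eval_prod] at h1
  have h2 : ∀ μ ∈ primitiveRoots (p ^ (k + 1)) K,
      ‖Polynomial.eval 1 (Polynomial.X - Polynomial.C μ)‖ = ‖1 - ζ‖ := by
    intro μ hμ
    have hμ' := (mem_primitiveRoots hpos).1 hμ
    simp only [Polynomial.eval_sub, Polynomial.eval_X, Polynomial.eval_C]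
    apply le_antisymm
    · obtain ⟨i, -, hi⟩ := hζ.eq_pow_of_pow_eq_one hμ'.pow_eq_one
      rw [← hi]
      exact norm_one_sub_pow_le ζ (hnorm ζ hζ.pow_eq_one) i
    · have : NeZero (p ^ (k + 1)) := ⟨hpos.ne'⟩
      obtain ⟨i, -, hi⟩ := hμ'.eq_pow_of_pow_eq_one hζ.pow_eq_one
      rw [← hi]
      exact norm_one_sub_pow_le μ (hnorm μ hμ'.pow_eq_one) i
  rw [← h1, norm_prod, Finset.prod_congr rfl h2, Finset.prod_const, hζ.card_primitiveRoots]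

end Roots

section Kappa

variable {p : ℕ} [Fact p.Prime] {K : Type} [NormedField K]

/-- The class of functions of one variable that will act as contractions. -/
inductive Ctr (ψ : AddChar ℚ_[p] K) (c : ℚ_[p]) : (ℚ_[p] → K) → Prop
  | chirp (A B C : ℚ_[p]) (hA : ‖A‖ ≤ 1) : Ctr ψ c (fun u => ψ (c * (A * u ^ 2 + B * u + C)))
  | add (f g : ℚ_[p] → K) (hf : Ctr ψ c f) (hg : Ctr ψ c g) : Ctr ψ c (fun u => f u + g u)
  | mul (f g : ℚ_[p] → K) (hf : Ctr ψ c f) (hg : Ctr ψ c g) : Ctr ψ c (fun u => f u * g u)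
  | neg (f : ℚ_[p] → K) (hf : Ctr ψ c f) : Ctr ψ c (fun u => - f u)

theorem Ctr.one (ψ : AddChar ℚ_[p] K) (c : ℚ_[p]) : Ctr ψ c (fun _ => 1) := by
  have h := Ctr.chirp (ψ := ψ) (c := c) 0 0 0 (by simp)
  have h2 : (fun u : ℚ_[p] => ψ (c * (0 * u ^ 2 + 0 * u + 0))) = fun _ => (1 : K) := by
    funext u; simp
  rwa [h2] at h

theorem Ctr.sub {ψ : AddChar ℚ_[p] K} {c : ℚ_[p]} {f g : ℚ_[p] → K} (hf : Ctr ψ c f)
    (hg : Ctr ψ c g) : Ctr ψ c (fun u => f u - g u) := by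
  have h := Ctr.add _ _ hf (Ctr.neg _ hg)
  simpa [sub_eq_add_neg] using h

theorem Ctr.zero (ψ : AddChar ℚ_[p] K) (c : ℚ_[p]) : Ctr ψ c (fun _ => 0) := by
  have h := Ctr.sub (Ctr.one ψ c) (Ctr.one ψ c)
  simpa using h

theorem Ctr.prod {ψ : AddChar ℚ_[p] K} {c : ℚ_[p]} {ι : Type*} (s : Finset ι)
    (f : ι → ℚ_[p] → K) (hf : ∀ i ∈ s, Ctr ψ c (f i)) : Ctr ψ c (fun u => ∏ i ∈ s, f i u) := by
  classical
  induction s using Finset.induction_on with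
  | empty => simpa using Ctr.one ψ c
  | insert a s ha ih =>
    simp only [Finset.prod_insert ha]
    exact Ctr.mul _ _ (hf a (by simp)) (ih fun i hi => hf i (by simp [hi]))

theorem Ctr.sum {ψ : AddChar ℚ_[p] K} {c : ℚ_[p]} {ι : Type*} (s : Finset ι)
    (f : ι → ℚ_[p] → K) (hf : ∀ i ∈ s, Ctr ψ c (f i)) : Ctr ψ c (fun u => ∑ i ∈ s, f i u) := by
  classical
  induction s using Finset.induction_on with
  | empty => simpa using Ctr.zero ψ c
  | insert a s ha ih =>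
    simp only [Finset.sum_insert ha]
    exact Ctr.add _ _ (hf a (by simp)) (ih fun i hi => hf i (by simp [hi]))

/-- residues prime to `p`. -/
def units (p s : ℕ) : Finset ℕ := (Finset.range (p ^ s)).filter (fun i => (p ^ s).Coprime i)

theorem norm_natCast_of_coprime {i s : ℕ} (hs : s ≠ 0) (hi : (p ^ s).Coprime i) :
    ‖(i : ℚ_[p])‖ = 1 := by
  have h1 : p.Coprime i := (Nat.coprime_pow_left_iff (Nat.pos_of_ne_zero hs) p i).1 hi
  apply le_antisymm (by exact_mod_cast Padic.norm_int_le_one (p := p) (i : ℤ))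
  by_contra hcon
  push Not at hcon
  have h2 := (Padic.norm_natCast_lt_one_iff).1 hcon
  exact (Fact.out : p.Prime).one_lt.ne' (Nat.eq_one_of_dvd_coprimes h1 (dvd_refl p) h2)

theorem primitive_value (ψ : AddChar ℚ_[p] K) (c : ℚ_[p])
    (hc : ∀ x : ℚ_[p], ψ (c * x) = 1 ↔ ‖x‖ ≤ 1) (s i : ℕ) (hs : s ≠ 0)
    (hi : (p ^ s).Coprime i) :
    IsPrimitiveRoot (ψ (c * ((i : ℚ_[p]) ^ 2 / (p : ℚ_[p]) ^ (2 * s)))) (p ^ (2 * s)) := by
  have hp0 : (p : ℚ_[p]) ≠ 0 := by exact_mod_cast (Fact.out : p.Prime).ne_zero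
  have hi1 := norm_natCast_of_coprime hs hi
  have key : ∀ m : ℕ, ψ (c * ((i : ℚ_[p]) ^ 2 / (p : ℚ_[p]) ^ (2 * s))) ^ m =
      ψ (c * ((m : ℚ_[p]) * ((i : ℚ_[p]) ^ 2 / (p : ℚ_[p]) ^ (2 * s)))) := by
    intro m
    rw [← AddChar.map_nsmul_eq_pow, nsmul_eq_mul]
    congr 1; ring
  constructor
  · rw [key, hc]
    push_cast
    rw [mul_div_cancel₀ _ (pow_ne_zero _ hp0), norm_pow, hi1, one_pow]
  · intro m hm
    rw [key, hc, norm_mul, norm_div, norm_pow, hi1, one_pow, norm_pow, Padic.norm_p] at hm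
    have h1 : ‖((m : ℤ) : ℚ_[p])‖ ≤ (p : ℝ) ^ (-((2 * s : ℕ) : ℤ)) := by
      have hpp : (0 : ℝ) < (p : ℝ)⁻¹ ^ (2 * s) := by
        have : (0 : ℝ) < p := by exact_mod_cast (Fact.out : p.Prime).pos
        positivity
      rw [mul_one_div, div_le_one hpp] at hm
      rw [zpow_neg, zpow_natCast, ← inv_pow]
      exact_mod_cast hm
    have h2 := (Padic.norm_int_le_pow_iff_dvd (p := p) (m : ℤ) (2 * s)).1 h1
    exact_mod_cast h2

theorem eps_norm [IsUltrametricDist K] (ψ : AddChar ℚ_[p] K) (c : ℚ_[p])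
    (hc : ∀ x : ℚ_[p], ψ (c * x) = 1 ↔ ‖x‖ ≤ 1) (hpK : ‖(p : K)‖ = (p : ℝ)⁻¹) (s : ℕ)
    (hs : s ≠ 0) :
    ‖∏ i ∈ units p s, (1 - ψ (c * ((i : ℚ_[p]) ^ 2 / (p : ℚ_[p]) ^ (2 * s))))‖ =
      ((p : ℝ)⁻¹) ^ (((p ^ s : ℕ) : ℝ)⁻¹) := by
  have hp : p.Prime := Fact.out
  obtain ⟨t, rfl⟩ : ∃ t, s = t + 1 := ⟨s - 1, by omega⟩
  set y := ‖∏ i ∈ units p (t + 1),
    (1 - ψ (c * ((i : ℚ_[p]) ^ 2 / (p : ℚ_[p]) ^ (2 * (t + 1)))))‖ with hy
  have hfac : ∀ i ∈ units p (t + 1),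
      ‖1 - ψ (c * ((i : ℚ_[p]) ^ 2 / (p : ℚ_[p]) ^ (2 * (t + 1))))‖ ^
        (Nat.totient (p ^ (2 * (t + 1)))) = (p : ℝ)⁻¹ := by
    intro i hi
    have hi' := (Finset.mem_filter.1 hi).2
    have h1 := primitive_value ψ c hc (t + 1) i hs hi'
    have h2 : 2 * (t + 1) = (2 * t + 1) + 1 := by ring
    rw [h2] at h1 ⊢
    rw [norm_one_sub_primitive _ _ h1, hpK]
  have hcard : (units p (t + 1)).card = Nat.totient (p ^ (t + 1)) :=
    (Nat.totient_eq_card_coprime (p ^ (t + 1))).symm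
  have htot : Nat.totient (p ^ (2 * (t + 1))) = Nat.totient (p ^ (t + 1)) * p ^ (t + 1) := by
    rw [Nat.totient_prime_pow hp (by omega), Nat.totient_prime_pow hp (by omega)]
    have h1 : 2 * (t + 1) - 1 = t + (t + 1) := by omega
    rw [h1, Nat.add_sub_cancel, pow_add]
    ring
  have htpos : 0 < Nat.totient (p ^ (t + 1)) := Nat.totient_pos.2 (pow_pos hp.pos _)
  -- each factor to the power `φ(p^s) p^s` is `1/p`
  have h3 : y ^ (p ^ (t + 1)) = (p : ℝ)⁻¹ := by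
    have h4 : (y ^ (p ^ (t + 1))) ^ (Nat.totient (p ^ (t + 1))) =
        ((p : ℝ)⁻¹) ^ (Nat.totient (p ^ (t + 1))) := by
      rw [← pow_mul, mul_comm, ← htot, hy, norm_prod, ← Finset.prod_pow,
        Finset.prod_congr rfl hfac, Finset.prod_const, hcard]
    exact (pow_left_inj₀ (by positivity) (by positivity) htpos.ne').1 h4
  have h5 : p ^ (t + 1) ≠ 0 := pow_ne_zero _ hp.ne_zero
  rw [← h3, Real.pow_rpow_inv_natCast (norm_nonneg _) h5]

end Kappa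

end Pool.Agent.Helper86.MaxNorm
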