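import Pool.Agent.Helper86.MaxNorm.Span

open scoped Matrix

noncomputable section

namespace Pool.Agent.Helper86.MaxNorm

section Contraction

variable {p : ℕ} [Fact p.Prime] {d : ℕ} {K : Type} [NormedField K]

/-- multiplication by a locally constant function of the coordinate `l`. -/
def mulS (φ : ℚ_[p] → K) (hφ : IsLocallyConstant φ) (l : Fin d) (f : Sch p d K) : Sch p d K :=
  ⟨fun x => φ (x l) * (f : (Fin d → ℚ_[p]) → K) x, by
    constructor
    · exact (isLocallyConstant_comp_continuous hφ (continuous_apply l)).mul f.2.1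
    · exact f.2.2.mul_left⟩

theorem mulS_apply (φ : ℚ_[p] → K) (hφ : IsLocallyConstant φ) (l : Fin d) (f : Sch p d K)
    (x : Fin d → ℚ_[p]) :
    (mulS φ hφ l f : (Fin d → ℚ_[p]) → K) x = φ (x l) * (f : (Fin d → ℚ_[p]) → K) x := rfl

theorem chirp_lc (ψ : AddChar ℚ_[p] K) (hψ : IsOpen {x : ℚ_[p] | ψ x = 1}) (c A B C : ℚ_[p]) :
    IsLocallyConstant (fun u : ℚ_[p] => ψ (c * (A * u ^ 2 + B * u + C))) :=
  isLocallyConstant_comp_continuous (isLocallyConstant_char ψ hψ) (by fun_prop)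

theorem Ctr.isLocallyConstant {ψ : AddChar ℚ_[p] K} (hψ : IsOpen {x : ℚ_[p] | ψ x = 1})
    {c : ℚ_[p]} {φ : ℚ_[p] → K} (h : Ctr ψ c φ) : IsLocallyConstant φ := by
  induction h with
  | chirp A B C _ => exact chirp_lc ψ hψ c A B C
  | add f g _ _ hf hg => exact hf.add hg
  | mul f g _ _ hf hg => exact hf.mul hg
  | neg f _ hf => exact hf.neg

/-- the symplectic matrix of the multiplication by `ψ(c A x_l²)`. -/
def shear (c A : ℚ_[p]) (l : Fin d) : Matrix (Fin d ⊕ Fin d) (Fin d ⊕ Fin d) ℚ_[p] :=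
  Matrix.fromBlocks 1 (Matrix.diagonal (Pi.single l (-(2 * c * A)))) 0 1

theorem shear_mem (c A : ℚ_[p]) (l : Fin d) : shear c A l ∈ Matrix.symplecticGroup (Fin d) ℚ_[p] := by
  rw [SymplecticGroup.mem_iff, shear, Matrix.J, Matrix.fromBlocks_transpose,
    Matrix.fromBlocks_multiply, Matrix.fromBlocks_multiply]
  simp

/-- the operator of multiplication by `ψ(c A x_l²)`. -/
def chirpOp (ψ : AddChar ℚ_[p] K) (hψ : IsOpen {x : ℚ_[p] | ψ x = 1}) (c A : ℚ_[p]) (l : Fin d) :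
    Sch p d K ≃ₗ[K] Sch p d K where
  toFun := mulS (fun u => ψ (c * (A * u ^ 2 + 0 * u + 0))) (chirp_lc ψ hψ c A 0 0) l
  invFun := mulS (fun u => ψ (c * (-A * u ^ 2 + 0 * u + 0))) (chirp_lc ψ hψ c (-A) 0 0) l
  map_add' := fun f g => by
    apply Subtype.ext
    funext x
    rw [mulS_apply, Submodule.coe_add, Submodule.coe_add, Pi.add_apply, Pi.add_apply, mulS_apply,
      mulS_apply, mul_add]
  map_smul' := fun a f => by
    apply Subtype.ext
    funext x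
    rw [mulS_apply, Submodule.coe_smul, RingHom.id_apply, Submodule.coe_smul, Pi.smul_apply,
      Pi.smul_apply, mulS_apply, smul_eq_mul, smul_eq_mul]
    ring
  left_inv := fun f => by
    apply Subtype.ext
    funext x
    rw [mulS_apply, mulS_apply, ← mul_assoc, ← AddChar.map_add_eq_mul]
    have h : c * (-A * x l ^ 2 + 0 * x l + 0) + c * (A * x l ^ 2 + 0 * x l + 0) = 0 := by ring
    rw [h, AddChar.map_zero_eq_one, one_mul]
  right_inv := fun f => by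
    apply Subtype.ext
    funext x
    rw [mulS_apply, mulS_apply, ← mul_assoc, ← AddChar.map_add_eq_mul]
    have h : c * (A * x l ^ 2 + 0 * x l + 0) + c * (-A * x l ^ 2 + 0 * x l + 0) = 0 := by ring
    rw [h, AddChar.map_zero_eq_one, one_mul]

theorem chirpOp_apply (ψ : AddChar ℚ_[p] K) (hψ : IsOpen {x : ℚ_[p] | ψ x = 1}) (c A : ℚ_[p])
    (l : Fin d) (f : Sch p d K) (x : Fin d → ℚ_[p]) :
    (chirpOp ψ hψ c A l f : (Fin d → ℚ_[p]) → K) x =
      ψ (c * (A * (x l) ^ 2 + 0 * x l + 0)) * (f : (Fin d → ℚ_[p]) → K) x := rfl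

theorem chirpOp_intertwiner (ψ : AddChar ℚ_[p] K) (hψ : IsOpen {x : ℚ_[p] | ψ x = 1})
    (c A : ℚ_[p]) (l : Fin d) : IsIntertwiner ψ hψ (shear c A l) (chirpOp ψ hψ c A l) := by
  intro w t f
  apply Subtype.ext
  funext x
  rw [chirpOp_apply, rho_apply, rho_apply, chirpOp_apply]
  have e1 : (w ᵥ* shear c A l) ∘ Sum.inl = w ∘ Sum.inl := by
    rw [shear, Matrix.vecMul_fromBlocks]
    simp
  have e2 : (w ᵥ* shear c A l) ∘ Sum.inr =
      Pi.single l (-(2 * c * A) * (w (Sum.inl l))) + w ∘ Sum.inr := by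
    rw [shear, Matrix.vecMul_fromBlocks]
    funext i
    simp only [Function.comp, Sum.elim_inr, Pi.add_apply, Matrix.vecMul_diagonal,
      Matrix.vecMul_one]
    by_cases hi : i = l
    · subst hi
      simp [mul_comm]
    · simp [hi]
  rw [e1, e2]
  simp only [dotProduct_add, add_dotProduct, single_dotProduct, dotProduct_single]
  set F := (f : (Fin d → ℚ_[p]) → K) (x + w ∘ Sum.inl)
  have key : ∀ u r s : ℚ_[p], ∀ G : K, ψ u * (ψ r * ψ s * G) = ψ (u + r + s) * G := by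
    intro u r s G
    rw [AddChar.map_add_eq_mul, AddChar.map_add_eq_mul]; ring
  have key2 : ∀ u r s : ℚ_[p], ∀ G : K, ψ u * ψ r * (ψ s * G) = ψ (u + r + s) * G := by
    intro u r s G
    rw [AddChar.map_add_eq_mul, AddChar.map_add_eq_mul]; ring
  rw [key, key2]
  congr 2
  simp only [Pi.add_apply, Function.comp]
  ring

theorem chirpOp_one (ψ : AddChar ℚ_[p] K) (hψ : IsOpen {x : ℚ_[p] | ψ x = 1}) (c A : ℚ_[p])
    (hc : ∀ x : ℚ_[p], ψ (c * x) = 1 ↔ ‖x‖ ≤ 1) (hA : ‖A‖ ≤ 1) (l : Fin d) :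
    chirpOp ψ hψ c A l (one p d K) = one p d K := by
  apply Subtype.ext
  funext x
  rw [chirpOp_apply]
  by_cases hx : ∀ i, ‖x i‖ ≤ 1
  · rw [(hc _).2, one_mul]
    rw [zero_mul, add_zero, add_zero, norm_mul, norm_pow]
    exact mul_le_one₀ hA (by positivity) (pow_le_one₀ (norm_nonneg _) (hx l))
  · rw [one_apply_of_notMem x hx, mul_zero]

theorem IsIntertwiner.trans {ψ : AddChar ℚ_[p] K} {hψ : IsOpen {x : ℚ_[p] | ψ x = 1}}
    {g h : Matrix (Fin d ⊕ Fin d) (Fin d ⊕ Fin d) ℚ_[p]} {S T : Sch p d K ≃ₗ[K] Sch p d K}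
    (hS : IsIntertwiner ψ hψ g S) (hT : IsIntertwiner ψ hψ h T) :
    IsIntertwiner ψ hψ (g * h) (S.trans T) := by
  intro w t f
  rw [LinearEquiv.trans_apply, LinearEquiv.trans_apply, hS w t, hT _ t, Matrix.vecMul_vecMul]

theorem NG_chirp (ψ : AddChar ℚ_[p] K) (hψ : IsOpen {x : ℚ_[p] | ψ x = 1})
    (hbdd : ∀ f : Sch p d K, BddAbove (grassValues ψ hψ f)) (c A : ℚ_[p])
    (hc : ∀ x : ℚ_[p], ψ (c * x) = 1 ↔ ‖x‖ ≤ 1) (hA : ‖A‖ ≤ 1) (l : Fin d) (f : Sch p d K) :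
    NG ψ hψ (chirpOp ψ hψ c A l f) ≤ NG ψ hψ f := by
  apply NG_le
  intro g hg T hT
  have h1 := le_NG ψ hψ f (hbdd f) (shear c A l * g) (Submonoid.mul_mem _ (shear_mem c A l) hg)
    ((chirpOp ψ hψ c A l).trans T) ((chirpOp_intertwiner ψ hψ c A l).trans hT)
  rwa [LinearEquiv.trans_apply, LinearEquiv.trans_apply, chirpOp_one ψ hψ c A hc hA l] at h1

theorem NG_ctr [IsUltrametricDist K] (ψ : AddChar ℚ_[p] K) (hψ : IsOpen {x : ℚ_[p] | ψ x = 1})
    (hbdd : ∀ f : Sch p d K, BddAbove (grassValues ψ hψ f)) (c : ℚ_[p])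
    (hc : ∀ x : ℚ_[p], ψ (c * x) = 1 ↔ ‖x‖ ≤ 1) (l : Fin d) (φ : ℚ_[p] → K) (hφ : Ctr ψ c φ) :
    ∀ f : Sch p d K, NG ψ hψ (mulS φ (hφ.isLocallyConstant hψ) l f) ≤ NG ψ hψ f := by
  have hN := NG_isNorm ψ hψ hbdd
  have hI := NG_isInvariant (d := d) (K := K) ψ hψ
  induction hφ with
  | chirp A B C hA =>
    intro f
    have h1 : mulS (fun u => ψ (c * (A * u ^ 2 + B * u + C))) (chirp_lc ψ hψ c A B C) l f =
        rho ψ hψ (Sum.elim 0 (Pi.single l (c * B))) (c * C) (chirpOp ψ hψ c A l f) := by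
      apply Subtype.ext
      funext x
      rw [mulS_apply, rho_apply]
      have e1 : (Sum.elim (0 : Fin d → ℚ_[p]) (Pi.single l (c * B))) ∘ Sum.inl = 0 := rfl
      have e2 : (Sum.elim (0 : Fin d → ℚ_[p]) (Pi.single l (c * B))) ∘ Sum.inr =
        Pi.single l (c * B) := rfl
      rw [e1, e2, zero_dotProduct, single_dotProduct, add_zero, chirpOp_apply, mul_zero, add_zero,
        ← mul_assoc, ← AddChar.map_add_eq_mul, ← AddChar.map_add_eq_mul]
      congr 2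
      ring
    rw [h1, hI]
    exact NG_chirp ψ hψ hbdd c A hc hA l f
  | add φ₁ φ₂ h₁ h₂ ih₁ ih₂ =>
    intro f
    have h1 : mulS (fun u => φ₁ u + φ₂ u) ((Ctr.add _ _ h₁ h₂).isLocallyConstant hψ) l f =
        mulS φ₁ (h₁.isLocallyConstant hψ) l f + mulS φ₂ (h₂.isLocallyConstant hψ) l f := by
      apply Subtype.ext
      funext x
      rw [Submodule.coe_add, Pi.add_apply, mulS_apply, mulS_apply, mulS_apply, add_mul]
    rw [h1]
    exact (hN.add_le _ _).trans (max_le (ih₁ f) (ih₂ f))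
  | mul φ₁ φ₂ h₁ h₂ ih₁ ih₂ =>
    intro f
    have h1 : mulS (fun u => φ₁ u * φ₂ u) ((Ctr.mul _ _ h₁ h₂).isLocallyConstant hψ) l f =
        mulS φ₁ (h₁.isLocallyConstant hψ) l (mulS φ₂ (h₂.isLocallyConstant hψ) l f) := by
      apply Subtype.ext
      funext x
      rw [mulS_apply, mulS_apply, mulS_apply, mul_assoc]
    rw [h1]
    exact (ih₁ _).trans (ih₂ f)
  | neg φ₁ h₁ ih₁ =>
    intro f
    have h1 : mulS (fun u => - φ₁ u) ((Ctr.neg _ h₁).isLocallyConstant hψ) l f =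
        (-1 : K) • mulS φ₁ (h₁.isLocallyConstant hψ) l f := by
      apply Subtype.ext
      funext x
      rw [Submodule.coe_smul, Pi.smul_apply, mulS_apply, mulS_apply, smul_eq_mul]
      ring
    rw [h1, hN.smul, norm_neg, norm_one, one_mul]
    exact ih₁ f

theorem NG_prod [IsUltrametricDist K] (ψ : AddChar ℚ_[p] K) (hψ : IsOpen {x : ℚ_[p] | ψ x = 1})
    (hbdd : ∀ f : Sch p d K, BddAbove (grassValues ψ hψ f)) (c : ℚ_[p])
    (hc : ∀ x : ℚ_[p], ψ (c * x) = 1 ↔ ‖x‖ ≤ 1) (φ : ℚ_[p] → K) (hφ : Ctr ψ c φ)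
    (f : Sch p d K) (s : Finset (Fin d)) : ∃ f' : Sch p d K,
      (∀ x, (f' : (Fin d → ℚ_[p]) → K) x = (∏ l ∈ s, φ (x l)) * (f : (Fin d → ℚ_[p]) → K) x) ∧
      NG ψ hψ f' ≤ NG ψ hψ f := by
  classical
  induction s using Finset.induction_on with
  | empty => exact ⟨f, fun x => by simp, le_rfl⟩
  | insert l s hl ih =>
    obtain ⟨f', h1, h2⟩ := ih
    refine ⟨mulS φ (hφ.isLocallyConstant hψ) l f', fun x => ?_,
      (NG_ctr ψ hψ hbdd c hc l φ hφ f').trans h2⟩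
    rw [mulS_apply, h1, Finset.prod_insert hl, mul_assoc]

/-- cutting off to `ℤ_p^d` costs at most a factor `p^{3d}`. -/
theorem NG_cut [IsUltrametricDist K] (ψ : AddChar ℚ_[p] K) (hψ : IsOpen {x : ℚ_[p] | ψ x = 1})
    (hbdd : ∀ f : Sch p d K, BddAbove (grassValues ψ hψ f)) (c : ℚ_[p])
    (hc : ∀ x : ℚ_[p], ψ (c * x) = 1 ↔ ‖x‖ ≤ 1) (hpK : ‖(p : K)‖ = (p : ℝ)⁻¹) (f F : Sch p d K)
    (hF1 : ∀ x : Fin d → ℚ_[p], (∀ i, ‖x i‖ ≤ 1) →
      (F : (Fin d → ℚ_[p]) → K) x = (f : (Fin d → ℚ_[p]) → K) x)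
    (hF2 : ∀ x : Fin d → ℚ_[p], ¬ (∀ i, ‖x i‖ ≤ 1) → (F : (Fin d → ℚ_[p]) → K) x = 0) :
    NG ψ hψ F ≤ ((p : ℝ) ^ 3) ^ d * NG ψ hψ f := by
  have hpr : (0 : ℝ) < p := by exact_mod_cast (Fact.out : p.Prime).pos
  have hN := NG_isNorm ψ hψ hbdd
  obtain ⟨n, hn1, -⟩ := exists_level f
  obtain ⟨κ, ε, hκ, h1, h2, h3⟩ := exists_kappa' ψ c hc hpK n
  obtain ⟨f', hf', hle⟩ := NG_prod ψ hψ hbdd c hc κ hκ f Finset.univ
  have h4 : f' = (ε ^ d) • F := by
    apply Subtype.ext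
    funext x
    rw [Submodule.coe_smul, Pi.smul_apply, smul_eq_mul, hf']
    by_cases hx : ∀ i, ‖x i‖ ≤ 1
    · rw [hF1 x hx, Finset.prod_congr rfl (fun l _ => h1 (x l) (hx l)), Finset.prod_const,
        Finset.card_univ, Fintype.card_fin]
    · rw [hF2 x hx, mul_zero]
      by_cases hx2 : ∃ i, (p : ℝ) ^ n < ‖x i‖
      · rw [hn1 x hx2, mul_zero]
      · push Not at hx hx2
        obtain ⟨i, hi⟩ := hx
        rw [Finset.prod_eq_zero (Finset.mem_univ i) (h2 (x i) hi (hx2 i)), zero_mul]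
  rw [h4, hN.smul, norm_pow] at hle
  have h5 : (0 : ℝ) < ((p : ℝ)⁻¹) ^ 3 := by positivity
  have h6 : (((p : ℝ)⁻¹) ^ 3) ^ d ≤ ‖ε‖ ^ d := pow_le_pow_left₀ h5.le h3 d
  have h7 := (mul_le_mul_of_nonneg_right h6 (hN.nonneg F)).trans hle
  rw [inv_pow, inv_pow, inv_mul_le_iff₀ (by positivity)] at h7
  exact h7

end Contraction

end Pool.Agent.Helper86.MaxNorm
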