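import Mathlib

open scoped Matrix

noncomputable section

namespace Pool.Agent.Helper86.MaxNorm

section Defs

variable (p : ℕ) [Fact p.Prime] (d : ℕ) (K : Type) [NormedField K]

/-- `𝒮`: the space of locally constant, compactly supported functions `ℚ_p^d → K`
(used with `K = ℂ_p`). -/
def Sch : Submodule K ((Fin d → ℚ_[p]) → K) where
  carrier := {f | IsLocallyConstant f ∧ HasCompactSupport f}
  zero_mem' := ⟨IsLocallyConstant.const 0, HasCompactSupport.zero⟩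
  add_mem' := fun hf hg => ⟨hf.1.add hg.1, hf.2.add hg.2⟩
  smul_mem' := fun c f hf => ⟨hf.1.comp (fun z => c * z), by
    have h := hf.2.mul_left (f := fun _ => c)
    exact h⟩

variable {p d K}

/-- The function `ρ([a,b,t]) f`, `(a, b) = w`, of the Schrödinger representation:
`x ↦ ψ(t + (a·b)/2) ψ(b·x) f(x + a)`. -/
def rhoFun (ψ : AddChar ℚ_[p] K) (w : Fin d ⊕ Fin d → ℚ_[p]) (t : ℚ_[p])
    (f : (Fin d → ℚ_[p]) → K) : (Fin d → ℚ_[p]) → K := fun x =>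
  ψ (t + (1 / 2) * ((w ∘ Sum.inl) ⬝ᵥ (w ∘ Sum.inr))) * ψ ((w ∘ Sum.inr) ⬝ᵥ x) * f (x + w ∘ Sum.inl)

theorem isLocallyConstant_char (ψ : AddChar ℚ_[p] K) (hψ : IsOpen {x : ℚ_[p] | ψ x = 1}) :
    IsLocallyConstant ψ := by
  rw [IsLocallyConstant.iff_exists_open]
  intro x
  refine ⟨(fun y => y - x) ⁻¹' {x : ℚ_[p] | ψ x = 1}, hψ.preimage (by fun_prop), by simp, ?_⟩
  intro y hy
  have h1 : ψ (y - x) = 1 := hy
  have h2 : ψ y = ψ (y - x) * ψ x := by rw [← AddChar.map_add_eq_mul, sub_add_cancel]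
  rw [h2, h1, one_mul]

theorem rhoFun_mem (ψ : AddChar ℚ_[p] K) (hψ : IsOpen {x : ℚ_[p] | ψ x = 1})
    (w : Fin d ⊕ Fin d → ℚ_[p]) (t : ℚ_[p]) {f : (Fin d → ℚ_[p]) → K} (hf : f ∈ Sch p d K) :
    rhoFun ψ w t f ∈ Sch p d K := by
  have hlc := isLocallyConstant_char ψ hψ
  constructor
  · have h1 : IsLocallyConstant (fun x : Fin d → ℚ_[p] => ψ ((w ∘ Sum.inr) ⬝ᵥ x)) :=
      hlc.comp_continuous (Continuous.dotProduct continuous_const continuous_id)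
    have h2 : IsLocallyConstant (fun x : Fin d → ℚ_[p] => f (x + w ∘ Sum.inl)) :=
      hf.1.comp_continuous (f := fun x : Fin d → ℚ_[p] => x + w ∘ Sum.inl) (by fun_prop)
    exact ((IsLocallyConstant.const _).mul h1).mul h2
  · have h2 : HasCompactSupport (fun x : Fin d → ℚ_[p] => f (x + w ∘ Sum.inl)) :=
      hf.2.comp_homeomorph (Homeomorph.addRight (w ∘ Sum.inl))
    exact h2.mul_left

/-- The operator `ρ([a,b,t])` on `𝒮`, `(a, b) = w`. -/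
def rho (ψ : AddChar ℚ_[p] K) (hψ : IsOpen {x : ℚ_[p] | ψ x = 1})
    (w : Fin d ⊕ Fin d → ℚ_[p]) (t : ℚ_[p]) : Sch p d K →ₗ[K] Sch p d K where
  toFun := fun f => ⟨rhoFun ψ w t f, rhoFun_mem ψ hψ w t f.2⟩
  map_add' := fun f g => by
    apply Subtype.ext
    funext x
    simp only [rhoFun, Submodule.coe_add, Pi.add_apply]
    ring
  map_smul' := fun c f => by
    apply Subtype.ext
    funext x
    simp only [rhoFun, Submodule.coe_smul, Pi.smul_apply, smul_eq_mul, RingHom.id_apply]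
    ring

/-- A (non-archimedean) norm on `𝒮`. -/
structure IsNorm (N : Sch p d K → ℝ) : Prop where
  nonneg : ∀ f, 0 ≤ N f
  smul : ∀ (c : K) (f : Sch p d K), N (c • f) = ‖c‖ * N f
  add_le : ∀ f g, N (f + g) ≤ max (N f) (N g)
  eq_zero : ∀ f, N f = 0 → f = 0

/-- Invariance of `N` under the Heisenberg group. -/
def IsInvariant (ψ : AddChar ℚ_[p] K) (hψ : IsOpen {x : ℚ_[p] | ψ x = 1})
    (N : Sch p d K → ℝ) : Prop :=
  ∀ (w : Fin d ⊕ Fin d → ℚ_[p]) (t : ℚ_[p]) (f : Sch p d K), N (rho ψ hψ w t f) = N f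

/-- The sup norm `‖f‖_∞ = sup_x |f(x)|`. -/
def supNorm (f : Sch p d K) : ℝ := ⨆ x : Fin d → ℚ_[p], ‖(f : (Fin d → ℚ_[p]) → K) x‖

/-- `T` is an intertwining operator for the symplectic matrix `g` (acting on row vectors on the
right): `T ρ([w,t]) = ρ([wg,t]) T`. -/
def IsIntertwiner (ψ : AddChar ℚ_[p] K) (hψ : IsOpen {x : ℚ_[p] | ψ x = 1})
    (g : Matrix (Fin d ⊕ Fin d) (Fin d ⊕ Fin d) ℚ_[p]) (T : Sch p d K ≃ₗ[K] Sch p d K) : Prop :=
  ∀ (w : Fin d ⊕ Fin d → ℚ_[p]) (t : ℚ_[p]) (f : Sch p d K),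
    T (rho ψ hψ w t f) = rho ψ hψ (w ᵥ* g) t (T f)

theorem isCompact_unitBall : IsCompact {x : Fin d → ℚ_[p] | ∀ i, ‖x i‖ ≤ 1} := by
  have h : {x : Fin d → ℚ_[p] | ∀ i, ‖x i‖ ≤ 1} =
      Set.pi Set.univ (fun _ => Metric.closedBall 0 1) := by
    ext x; simp [Set.mem_pi]
  rw [h]
  exact isCompact_univ_pi (fun _ => isCompact_closedBall 0 1)

theorem isClopen_unitBall : IsClopen {x : Fin d → ℚ_[p] | ∀ i, ‖x i‖ ≤ 1} := by
  have h : {x : Fin d → ℚ_[p] | ∀ i, ‖x i‖ ≤ 1} =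
      ⋂ i : Fin d, (fun x : Fin d → ℚ_[p] => x i) ⁻¹' (Metric.closedBall 0 1) := by
    ext x; simp
  rw [h]
  apply isClopen_iInter_of_finite
  intro i
  exact (IsUltrametricDist.isClopen_closedBall 0 one_ne_zero).preimage (continuous_apply i)

/-- `𝟏_{ℤ_p^d}`, the indicator function of `ℤ_p^d = {x | ∀ i, |x_i| ≤ 1}`. -/
def one (p : ℕ) [Fact p.Prime] (d : ℕ) (K : Type) [NormedField K] : Sch p d K :=
  ⟨Set.indicator {x | ∀ i, ‖x i‖ ≤ 1} (fun _ => 1),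
    (LocallyConstant.charFn K isClopen_unitBall).isLocallyConstant,
    HasCompactSupport.intro isCompact_unitBall fun _ hx => Set.indicator_of_notMem hx _⟩

/-- The set of the values at `f` of the norms `‖·‖_α`, `α = Pg`: all `‖T f‖_∞ / ‖T 𝟏‖_∞`, where
`T` is an intertwining operator for some `g ∈ Sp_{2d}(ℚ_p)`. -/
def grassValues (ψ : AddChar ℚ_[p] K) (hψ : IsOpen {x : ℚ_[p] | ψ x = 1}) (f : Sch p d K) : Set ℝ :=
  {r | ∃ g ∈ Matrix.symplecticGroup (Fin d) ℚ_[p], ∃ T : Sch p d K ≃ₗ[K] Sch p d K,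
    IsIntertwiner ψ hψ g T ∧ r = supNorm (T f) / supNorm (T (one p d K))}

/-- `N_𝒢(f) = sup_α ‖f‖_α`. -/
def NG (ψ : AddChar ℚ_[p] K) (hψ : IsOpen {x : ℚ_[p] | ψ x = 1})
    (f : Sch p d K) : ℝ := sSup (grassValues ψ hψ f)

end Defs

end Pool.Agent.Helper86.MaxNorm
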