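import Pool.Agent.Helper86.MaxNorm.Cut

open scoped Matrix

noncomputable section

namespace Pool.Agent.Helper86.MaxNorm

section Fourier

variable {p : ℕ} [Fact p.Prime] {d : ℕ} {K : Type} [NormedField K]

/-- Riemann sums. -/
def rsum (n : ℕ) (f : Sch p d K) : K :=
  ∑ k : Fin d → Fin (p ^ (n + n)), (f : (Fin d → ℚ_[p]) → K) (pt p d n n k)

theorem norm_pt_le (n : ℕ) (k : Fin d → Fin (p ^ (n + n))) (i : Fin d) :
    ‖pt p d n n k i‖ ≤ (p : ℝ) ^ n := by
  have hpr : (0 : ℝ) < p := by exact_mod_cast (Fact.out : p.Prime).pos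
  simp only [pt]
  rw [norm_div, norm_pow, Padic.norm_p, div_le_iff₀ (by positivity), ← mul_pow,
    mul_inv_cancel₀ hpr.ne', one_pow]
  exact_mod_cast Padic.norm_int_le_one (p := p) ((k i : ℕ) : ℤ)

theorem rsum_trans (ψ : AddChar ℚ_[p] K) (hψ : IsOpen {x : ℚ_[p] | ψ x = 1}) (n : ℕ)
    (f : Sch p d K) (a : Fin d → ℚ_[p]) (ha : ∀ i, ‖a i‖ ≤ (p : ℝ) ^ n)
    (hf : ∀ x h : Fin d → ℚ_[p], (∀ i, ‖h i‖ ≤ ((p : ℝ)⁻¹) ^ n) →
      (f : (Fin d → ℚ_[p]) → K) (x + h) = (f : (Fin d → ℚ_[p]) → K) x) :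
    rsum n (rho ψ hψ (Sum.elim a 0) 0 f) = rsum n f := by
  have hnorm : ∀ (k : Fin d → Fin (p ^ (n + n))) (i : Fin d),
      ‖(pt p d n n k + a) i‖ ≤ (p : ℝ) ^ n := fun k i =>
    (IsUltrametricDist.norm_add_le_max _ _).trans (max_le (norm_pt_le n k i) (ha i))
  choose σ hσ using fun k => exists_pt n n (pt p d n n k + a) (hnorm k)
  have hinj : Function.Injective σ := by
    intro k k' hkk
    apply pt_unique n n (pt p d n n (σ k) - a) k k'
    · intro i
      have h2 : (pt p d n n (σ k) - a) i - pt p d n n k i =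
          -((pt p d n n k + a) i - pt p d n n (σ k) i) := by
        simp only [Pi.sub_apply, Pi.add_apply]; ring
      rw [h2, norm_neg]
      exact hσ k i
    · intro i
      have h2 : (pt p d n n (σ k) - a) i - pt p d n n k' i =
          -((pt p d n n k' + a) i - pt p d n n (σ k) i) := by
        simp only [Pi.sub_apply, Pi.add_apply]; ring
      rw [h2, norm_neg, hkk]
      exact hσ k' i
  have hbij : Function.Bijective σ := Finite.injective_iff_bijective.1 hinj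
  unfold rsum
  refine (Finset.sum_congr rfl fun k _ => ?_).trans
    (hbij.sum_comp (fun k => (f : (Fin d → ℚ_[p]) → K) (pt p d n n k)))
  rw [rho_trans]
  have h1 := hf (pt p d n n (σ k)) (pt p d n n k + a - pt p d n n (σ k)) (hσ k)
  rw [add_sub_cancel] at h1
  exact h1

theorem rsum_one_ne_zero [CharZero K] (n : ℕ) : rsum n (one p d K) ≠ 0 := by
  classical
  have h1 : rsum n (one p d K) = ((Finset.univ.filter fun k : Fin d → Fin (p ^ (n + n)) =>
      ∀ i, ‖pt p d n n k i‖ ≤ 1).card : K) := by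
    unfold rsum
    rw [Finset.card_filter, Nat.cast_sum]
    refine Finset.sum_congr rfl fun k _ => ?_
    by_cases hk : ∀ i, ‖pt p d n n k i‖ ≤ 1
    · rw [one_apply_of_mem _ hk, if_pos hk, Nat.cast_one]
    · rw [one_apply_of_notMem _ hk, if_neg hk, Nat.cast_zero]
  rw [h1, Nat.cast_ne_zero]
  apply Finset.card_ne_zero_of_mem (a := fun _ => ⟨0, pow_pos (Fact.out : p.Prime).pos _⟩)
  rw [Finset.mem_filter]
  refine ⟨Finset.mem_univ _, fun i => ?_⟩
  simp [pt]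

theorem exists_pow_bound (a : Fin d → ℚ_[p]) : ∃ n : ℕ, ∀ i, ‖a i‖ ≤ (p : ℝ) ^ n := by
  have hp1 : (1 : ℝ) < p := by exact_mod_cast (Fact.out : p.Prime).one_lt
  obtain ⟨n, hn⟩ := pow_unbounded_of_one_lt ‖a‖ hp1
  exact ⟨n, fun i => (norm_le_pi_norm a i).trans hn.le⟩

/-- the translation-invariant functional. -/
theorem exists_functional [CharZero K] (ψ : AddChar ℚ_[p] K)
    (hψ : IsOpen {x : ℚ_[p] | ψ x = 1}) : ∃ I : Sch p d K →ₗ[K] K, I (one p d K) = 1 ∧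
      ∀ (a : Fin d → ℚ_[p]) (f : Sch p d K), I (rho ψ hψ (Sum.elim a 0) 0 f) = I f := by
  have hp1 : (1 : ℝ) < p := by exact_mod_cast (Fact.out : p.Prime).one_lt
  set V : Submodule K (Sch p d K) := Submodule.span K
    {v | ∃ (a : Fin d → ℚ_[p]) (f : Sch p d K), v = rho ψ hψ (Sum.elim a 0) 0 f - f} with hV
  have hadd : ∀ (n : ℕ) (f g : Sch p d K), rsum n (f + g) = rsum n f + rsum n g := by
    intro n f g
    unfold rsum
    rw [← Finset.sum_add_distrib]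
    rfl
  have hsmul : ∀ (n : ℕ) (a : K) (f : Sch p d K), rsum n (a • f) = a * rsum n f := by
    intro n a f
    unfold rsum
    rw [Finset.mul_sum]
    rfl
  have hsub : ∀ (n : ℕ) (f g : Sch p d K), rsum n (f - g) = rsum n f - rsum n g := by
    intro n f g
    unfold rsum
    rw [← Finset.sum_sub_distrib]
    rfl
  have h1 : ∀ v ∈ V, ∃ n₀ : ℕ, ∀ n ≥ n₀, rsum n v = 0 := by
    intro v hv
    induction hv using Submodule.span_induction with
    | mem v hv =>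
      obtain ⟨a, f, rfl⟩ := hv
      obtain ⟨n₁, hn₁⟩ := exists_pow_bound a
      obtain ⟨n₂, h2, h3⟩ := exists_level f
      refine ⟨max n₁ n₂, fun n hn => ?_⟩
      have h4 := level_mono f ((le_max_right n₁ n₂).trans hn) h2 h3
      rw [hsub, rsum_trans ψ hψ n f a _ h4.2, sub_self]
      intro i
      exact (hn₁ i).trans (pow_le_pow_right₀ hp1.le ((le_max_left n₁ n₂).trans hn))
    | zero =>
      refine ⟨0, fun n _ => ?_⟩
      have := hsmul n 0 0
      rwa [zero_smul, zero_mul] at this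
    | add f g _ _ hf hg =>
      obtain ⟨n₁, h1⟩ := hf
      obtain ⟨n₂, h2⟩ := hg
      refine ⟨max n₁ n₂, fun n hn => ?_⟩
      rw [hadd, h1 n ((le_max_left n₁ n₂).trans hn), h2 n ((le_max_right n₁ n₂).trans hn), add_zero]
    | smul a f _ hf =>
      obtain ⟨n₁, h1⟩ := hf
      refine ⟨n₁, fun n hn => ?_⟩
      rw [hsmul, h1 n hn, mul_zero]
  have h2 : one p d K ∉ V := by
    intro h
    obtain ⟨n₀, hn⟩ := h1 _ h
    exact rsum_one_ne_zero n₀ (hn n₀ le_rfl)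
  obtain ⟨I, hI1, hI2⟩ := Submodule.exists_le_ker_of_notMem h2
  refine ⟨(I (one p d K))⁻¹ • I, ?_, fun a f => ?_⟩
  · rw [LinearMap.smul_apply, smul_eq_mul, inv_mul_cancel₀ hI1]
  · rw [LinearMap.smul_apply, LinearMap.smul_apply]
    congr 1
    have h3 : rho ψ hψ (Sum.elim a 0) 0 f - f ∈ V := Submodule.subset_span ⟨a, f, rfl⟩
    have h4 := hI2 h3
    rw [LinearMap.mem_ker, map_sub, sub_eq_zero] at h4
    exact h4

/-- the symplectic matrix of the Fourier transform. -/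
def fmat (c : ℚ_[p]) : Matrix (Fin d ⊕ Fin d) (Fin d ⊕ Fin d) ℚ_[p] :=
  Matrix.fromBlocks 0 (Matrix.diagonal fun _ => -c) (Matrix.diagonal fun _ => c⁻¹) 0

theorem fmat_mem (c : ℚ_[p]) (hc0 : c ≠ 0) : fmat c ∈ Matrix.symplecticGroup (Fin d) ℚ_[p] := by
  rw [SymplecticGroup.mem_iff, fmat, Matrix.J, Matrix.fromBlocks_transpose,
    Matrix.fromBlocks_multiply, Matrix.fromBlocks_multiply]
  simp only [Matrix.zero_mul, Matrix.mul_zero, add_zero, zero_add, Matrix.mul_one,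
    Matrix.diagonal_transpose, Matrix.transpose_zero, Matrix.mul_neg, Matrix.neg_mul,
    Matrix.diagonal_mul_diagonal, neg_zero]
  congr 1
  · rw [neg_mul, mul_inv_cancel₀ hc0]
    ext i j
    by_cases hij : i = j
    · subst hij; simp
    · simp [hij]
  · rw [mul_neg, inv_mul_cancel₀ hc0]
    ext i j
    by_cases hij : i = j
    · subst hij; simp
    · simp [hij]

theorem vecMul_fmat (c : ℚ_[p]) (w : Fin d ⊕ Fin d → ℚ_[p]) :
    w ᵥ* fmat c = Sum.elim (c⁻¹ • (w ∘ Sum.inr)) (-(c • (w ∘ Sum.inl))) := by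
  rw [fmat, Matrix.vecMul_fromBlocks]
  funext i
  rcases i with i | i
  · simp [mul_comm]
  · simp

theorem fmat_four (c : ℚ_[p]) (hc0 : c ≠ 0) (w : Fin d ⊕ Fin d → ℚ_[p]) :
    (((w ᵥ* fmat c) ᵥ* fmat c) ᵥ* fmat c) ᵥ* fmat c = w := by
  rw [vecMul_fmat, vecMul_fmat, vecMul_fmat, vecMul_fmat]
  funext i
  rcases i with i | i
  · simp [hc0]
  · simp [hc0]

/-- the Fourier transform, with values in functions. -/
def fourFun (ψ : AddChar ℚ_[p] K) (hψ : IsOpen {x : ℚ_[p] | ψ x = 1}) (c : ℚ_[p])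
    (I : Sch p d K →ₗ[K] K) : Sch p d K →ₗ[K] ((Fin d → ℚ_[p]) → K) where
  toFun := fun f ξ => I (rho ψ hψ (Sum.elim 0 (c • ξ)) 0 f)
  map_add' := fun f g => by
    funext ξ
    rw [Pi.add_apply, map_add, map_add]
  map_smul' := fun a f => by
    funext ξ
    rw [Pi.smul_apply, map_smul, map_smul, RingHom.id_apply]

theorem fourFun_rho (ψ : AddChar ℚ_[p] K) (hψ : IsOpen {x : ℚ_[p] | ψ x = 1}) (c : ℚ_[p])
    (hc0 : c ≠ 0) (I : Sch p d K →ₗ[K] K)
    (hI : ∀ (a : Fin d → ℚ_[p]) (f : Sch p d K), I (rho ψ hψ (Sum.elim a 0) 0 f) = I f)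
    (w : Fin d ⊕ Fin d → ℚ_[p]) (t : ℚ_[p]) (f : Sch p d K) :
    fourFun ψ hψ c I (rho ψ hψ w t f) = rhoFun ψ (w ᵥ* fmat c) t (fourFun ψ hψ c I f) := by
  funext ξ
  rw [vecMul_fmat]
  simp only [fourFun, LinearMap.coe_mk, AddHom.coe_mk, rhoFun]
  have e1 : (Sum.elim (c⁻¹ • w ∘ Sum.inr) (-(c • w ∘ Sum.inl))) ∘ Sum.inl = c⁻¹ • w ∘ Sum.inr := rfl
  have e2 : (Sum.elim (c⁻¹ • w ∘ Sum.inr) (-(c • w ∘ Sum.inl))) ∘ Sum.inr = -(c • w ∘ Sum.inl) := rfl
  rw [e1, e2]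
  -- write the argument as a translate
  have h1 : rho ψ hψ (Sum.elim 0 (c • ξ)) 0 (rho ψ hψ w t f) =
      (ψ (t + (1 / 2) * ((c⁻¹ • w ∘ Sum.inr) ⬝ᵥ (-(c • w ∘ Sum.inl)))) *
        ψ ((-(c • w ∘ Sum.inl)) ⬝ᵥ ξ)) • rho ψ hψ (Sum.elim (w ∘ Sum.inl) 0) 0
        (rho ψ hψ (Sum.elim 0 (c • (ξ + c⁻¹ • w ∘ Sum.inr))) 0 f) := by
    apply Subtype.ext
    funext x
    rw [Submodule.coe_smul, Pi.smul_apply, smul_eq_mul, rho_mod, rho_trans, rho_mod, rho_apply]
    have key : ∀ u r s : ℚ_[p], ∀ G : K, ψ u * (ψ r * ψ s * G) = ψ (u + r + s) * G := by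
      intro u r s G
      rw [AddChar.map_add_eq_mul, AddChar.map_add_eq_mul]; ring
    have key2 : ∀ u r s : ℚ_[p], ∀ G : K, ψ u * ψ r * (ψ s * G) = ψ (u + r + s) * G := by
      intro u r s G
      rw [AddChar.map_add_eq_mul, AddChar.map_add_eq_mul]; ring
    rw [key, key2]
    congr 2
    have h2 : c • c⁻¹ • w ∘ Sum.inr = w ∘ Sum.inr := by
      rw [smul_smul, mul_inv_cancel₀ hc0, one_smul]
    rw [smul_add, h2]
    simp only [dotProduct_add, add_dotProduct, neg_dotProduct, dotProduct_neg, smul_dotProduct,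
      dotProduct_smul, smul_eq_mul]
    rw [dotProduct_comm ξ (w ∘ Sum.inl), dotProduct_comm (w ∘ Sum.inr) (w ∘ Sum.inl)]
    field_simp
    ring
  rw [h1, map_smul, hI, smul_eq_mul]

theorem fourFun_one (ψ : AddChar ℚ_[p] K) (hψ : IsOpen {x : ℚ_[p] | ψ x = 1}) (c : ℚ_[p])
    (hc0 : c ≠ 0) (hc : ∀ x : ℚ_[p], ψ (c * x) = 1 ↔ ‖x‖ ≤ 1) (I : Sch p d K →ₗ[K] K)
    (hI1 : I (one p d K) = 1)
    (hI : ∀ (a : Fin d → ℚ_[p]) (f : Sch p d K), I (rho ψ hψ (Sum.elim a 0) 0 f) = I f) :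
    fourFun ψ hψ c I (one p d K) = (one p d K : (Fin d → ℚ_[p]) → K) := by
  funext ξ
  by_cases hξ : ∀ i, ‖ξ i‖ ≤ 1
  · rw [one_apply_of_mem ξ hξ, ← hI1]
    show I (rho ψ hψ (Sum.elim 0 (c • ξ)) 0 (one p d K)) = I (one p d K)
    congr 1
    apply Subtype.ext
    funext x
    rw [rho_mod]
    by_cases hx : ∀ i, ‖x i‖ ≤ 1
    · rw [smul_dotProduct, smul_eq_mul, (hc _).2, one_mul]
      apply IsUltrametricDist.norm_sum_le_of_forall_le_of_nonneg zero_le_one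
      intro i _
      rw [norm_mul]
      exact mul_le_one₀ (hξ i) (norm_nonneg _) (hx i)
    · rw [one_apply_of_notMem x hx, mul_zero]
  · rw [one_apply_of_notMem ξ hξ]
    push Not at hξ
    obtain ⟨l, hl⟩ := hξ
    -- translate by `e_l`
    have h1 : rho ψ hψ (Sum.elim (Pi.single l 1) 0) 0 (one p d K) = one p d K := by
      apply Subtype.ext
      funext x
      rw [rho_trans]
      have hs : ∀ i, ‖(Pi.single l (1 : ℚ_[p]) : Fin d → ℚ_[p]) i‖ ≤ 1 := by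
        intro i
        by_cases hi : i = l
        · subst hi; simp
        · simp [hi]
      by_cases hx : ∀ i, ‖x i‖ ≤ 1
      · rw [one_apply_of_mem x hx, one_apply_of_mem]
        intro i
        exact (IsUltrametricDist.norm_add_le_max _ _).trans (max_le (hx i) (hs i))
      · rw [one_apply_of_notMem x hx, one_apply_of_notMem]
        intro h
        apply hx
        intro i
        have h2 : x i = (x + (Pi.single l (1 : ℚ_[p]) : Fin d → ℚ_[p])) i + -(Pi.single l (1 : ℚ_[p]) : Fin d → ℚ_[p]) i := by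
          rw [Pi.add_apply]; ring
        rw [h2]
        refine (IsUltrametricDist.norm_add_le_max _ _).trans (max_le (h i) ?_)
        rw [norm_neg]
        exact hs i
    have h2 := fourFun_rho ψ hψ c hc0 I hI (Sum.elim (Pi.single l 1) 0) 0 (one p d K)
    rw [h1] at h2
    have h3 := congrFun h2 ξ
    rw [vecMul_fmat, rhoFun] at h3
    have e1 : (Sum.elim (Pi.single l (1 : ℚ_[p])) (0 : Fin d → ℚ_[p])) ∘ Sum.inl =
      Pi.single l 1 := rfl
    have e2 : (Sum.elim (Pi.single l (1 : ℚ_[p])) (0 : Fin d → ℚ_[p])) ∘ Sum.inr = 0 := rfl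
    rw [e1, e2, smul_zero] at h3
    have e3 : (Sum.elim (0 : Fin d → ℚ_[p]) (-(c • Pi.single l (1 : ℚ_[p])))) ∘ Sum.inl = 0 := rfl
    have e4 : (Sum.elim (0 : Fin d → ℚ_[p]) (-(c • Pi.single l (1 : ℚ_[p])))) ∘ Sum.inr =
      -(c • Pi.single l (1 : ℚ_[p])) := rfl
    rw [e3, e4, zero_dotProduct, mul_zero, add_zero, AddChar.map_zero_eq_one, one_mul, add_zero,
      neg_dotProduct, smul_dotProduct, single_dotProduct, one_mul, smul_eq_mul] at h3
    by_contra hne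
    have h4 : ψ (-(c * ξ l)) = 1 := by
      have h5 : (1 : K) * fourFun ψ hψ c I (one p d K) ξ =
          ψ (-(c * ξ l)) * fourFun ψ hψ c I (one p d K) ξ := by rw [one_mul]; exact h3
      exact (mul_right_cancel₀ hne h5).symm
    have h6 : ψ (c * -(ξ l)) = 1 := by rw [mul_neg]; exact h4
    rw [hc, norm_neg] at h6
    linarith

theorem fourFun_mem (ψ : AddChar ℚ_[p] K) (hψ : IsOpen {x : ℚ_[p] | ψ x = 1}) (c : ℚ_[p])
    (hc0 : c ≠ 0) (hc : ∀ x : ℚ_[p], ψ (c * x) = 1 ↔ ‖x‖ ≤ 1) (hpK : ‖(p : K)‖ = (p : ℝ)⁻¹)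
    (I : Sch p d K →ₗ[K] K) (hI1 : I (one p d K) = 1)
    (hI : ∀ (a : Fin d → ℚ_[p]) (f : Sch p d K), I (rho ψ hψ (Sum.elim a 0) 0 f) = I f)
    (f : Sch p d K) : fourFun ψ hψ c I f ∈ Sch p d K := by
  have hf : f ∈ Submodule.span K (orb (d := d) ψ hψ) := by
    rw [span_orb ψ hψ c hc hpK]; trivial
  induction hf using Submodule.span_induction with
  | mem f hf =>
    obtain ⟨w, rfl⟩ := hf
    simp only
    rw [fourFun_rho ψ hψ c hc0 I hI, fourFun_one ψ hψ c hc0 hc I hI1 hI]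
    exact rhoFun_mem ψ hψ _ _ (one p d K).2
  | zero => rw [map_zero]; exact Submodule.zero_mem _
  | add f g _ _ hf hg => rw [map_add]; exact Submodule.add_mem _ hf hg
  | smul a f _ hf => rw [map_smul]; exact Submodule.smul_mem _ _ hf

/-- There is an intertwining operator for `fmat c` fixing `𝟏`, given by the Fourier transform. -/
theorem exists_fourier [CharZero K] (ψ : AddChar ℚ_[p] K)
    (hψ : IsOpen {x : ℚ_[p] | ψ x = 1}) (c : ℚ_[p])
    (hc0 : c ≠ 0) (hc : ∀ x : ℚ_[p], ψ (c * x) = 1 ↔ ‖x‖ ≤ 1) (hpK : ‖(p : K)‖ = (p : ℝ)⁻¹) :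
    ∃ (T : Sch p d K ≃ₗ[K] Sch p d K), IsIntertwiner ψ hψ (fmat c) T ∧
      T (one p d K) = one p d K ∧ (∀ f, T (T (T (T f))) = f) ∧
      (∀ f : Sch p d K, (∀ x : Fin d → ℚ_[p], ¬ (∀ i, ‖x i‖ ≤ 1) →
        (f : (Fin d → ℚ_[p]) → K) x = 0) →
        ∀ ξ h : Fin d → ℚ_[p], (∀ i, ‖h i‖ ≤ 1) →
          (T f : (Fin d → ℚ_[p]) → K) (ξ + h) = (T f : (Fin d → ℚ_[p]) → K) ξ) := by
  obtain ⟨I, hI1, hI⟩ := exists_functional (d := d) ψ hψ
  set F : Sch p d K →ₗ[K] Sch p d K := LinearMap.codRestrict (Sch p d K) (fourFun ψ hψ c I)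
    (fourFun_mem ψ hψ c hc0 hc hpK I hI1 hI) with hF
  have hFval : ∀ f, (F f : (Fin d → ℚ_[p]) → K) = fourFun ψ hψ c I f := fun f => rfl
  have hrho : ∀ (w : Fin d ⊕ Fin d → ℚ_[p]) (t : ℚ_[p]) (f : Sch p d K),
      F (rho ψ hψ w t f) = rho ψ hψ (w ᵥ* fmat c) t (F f) := by
    intro w t f
    apply Subtype.ext
    rw [hFval, fourFun_rho ψ hψ c hc0 I hI]
    rfl
  have hone : F (one p d K) = one p d K := by
    apply Subtype.ext
    rw [hFval, fourFun_one ψ hψ c hc0 hc I hI1 hI]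
  have hfour : ∀ f, F (F (F (F f))) = f := by
    intro f
    have hf : f ∈ Submodule.span K (orb (d := d) ψ hψ) := by
      rw [span_orb ψ hψ c hc hpK]; trivial
    induction hf using Submodule.span_induction with
    | mem f hf =>
      obtain ⟨w, rfl⟩ := hf
      simp only
      rw [hrho, hone, hrho, hone, hrho, hone, hrho, hone, fmat_four c hc0]
    | zero => simp only [map_zero]
    | add f g _ _ hf hg => simp only [map_add] at hf hg ⊢; rw [hf, hg]
    | smul a f _ hf => simp only [map_smul] at hf ⊢; rw [hf]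
  refine ⟨LinearEquiv.ofLinearMap F (F ∘ₗ F ∘ₗ F) (by ext1 f; exact hfour f)
    (by ext1 f; exact hfour f), fun w t f => hrho w t f, hone, hfour, ?_⟩
  intro f hf ξ h hh
  show (F f : (Fin d → ℚ_[p]) → K) (ξ + h) = (F f : (Fin d → ℚ_[p]) → K) ξ
  rw [hFval]
  show I (rho ψ hψ (Sum.elim 0 (c • (ξ + h))) 0 f) = I (rho ψ hψ (Sum.elim 0 (c • ξ)) 0 f)
  congr 1
  apply Subtype.ext
  funext x
  rw [rho_mod, rho_mod]
  by_cases hx : ∀ i, ‖x i‖ ≤ 1
  · congr 1
    rw [smul_add, add_dotProduct, AddChar.map_add_eq_mul, smul_dotProduct c h x, smul_eq_mul,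
      (hc (h ⬝ᵥ x)).2, mul_one]
    apply IsUltrametricDist.norm_sum_le_of_forall_le_of_nonneg zero_le_one
    intro i _
    rw [norm_mul]
    exact mul_le_one₀ (hh i) (norm_nonneg _) (hx i)
  · rw [hf x hx, mul_zero, mul_zero]

end Fourier

end Pool.Agent.Helper86.MaxNorm
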