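import Pool.Agent.Helper86.MaxNorm.Contractions

open scoped Matrix

noncomputable section

namespace Pool.Agent.Helper86.MaxNorm

section Kappa2

variable {p : ℕ} [Fact p.Prime] {K : Type} [NormedField K]

theorem norm_eq_pow_of_one_lt (u : ℚ_[p]) (hu : 1 < ‖u‖) : ∃ j : ℕ, 1 ≤ j ∧ ‖u‖ = (p : ℝ) ^ j := by
  have hp1 : (1 : ℝ) < p := by exact_mod_cast (Fact.out : p.Prime).one_lt
  have hu0 : u ≠ 0 := by rintro rfl; simp at hu; linarith
  rw [Padic.norm_eq_zpow_neg_valuation hu0] at hu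
  have h1 := (one_lt_zpow_iff_right₀ hp1).1 hu
  refine ⟨(-u.valuation).toNat, by omega, ?_⟩
  rw [Padic.norm_eq_zpow_neg_valuation hu0, ← zpow_natCast, Int.toNat_of_nonneg h1.le]

/-- approximation of a `p`-adic integer by a natural number below `p^N`. -/
theorem exists_nat_approx (x : ℚ_[p]) (hx : ‖x‖ ≤ 1) (N : ℕ) :
    ∃ k : ℕ, k < p ^ N ∧ ‖x - k‖ ≤ ((p : ℝ)⁻¹) ^ N := by
  set z : ℤ_[p] := ⟨x, hx⟩ with hz
  refine ⟨z.appr N, PadicInt.appr_lt z N, ?_⟩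
  have h1 := PadicInt.appr_spec N z
  rw [← PadicInt.norm_le_pow_iff_mem_span_pow] at h1
  rw [PadicInt.norm_def, PadicInt.coe_sub, PadicInt.coe_natCast] at h1
  rw [zpow_neg, zpow_natCast, ← inv_pow] at h1
  exact h1

theorem char_congr (ψ : AddChar ℚ_[p] K) (c : ℚ_[p])
    (hc : ∀ x : ℚ_[p], ψ (c * x) = 1 ↔ ‖x‖ ≤ 1) (x y : ℚ_[p]) (h : ‖x - y‖ ≤ 1) :
    ψ (c * x) = ψ (c * y) := by
  have h1 : c * x = c * (x - y) + c * y := by ring
  rw [h1, AddChar.map_add_eq_mul, (hc _).2 h, one_mul]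

/-- the factor that kills `|u| = p^j`. -/
theorem exists_factor (ψ : AddChar ℚ_[p] K) (c : ℚ_[p])
    (hc : ∀ x : ℚ_[p], ψ (c * x) = 1 ↔ ‖x‖ ≤ 1) (s j : ℕ) (hs : s ≠ 0) (hj : 2 * s ≤ j) :
    ∃ κ : ℚ_[p] → K, Ctr ψ c κ ∧
      (∀ u, ‖u‖ ≤ 1 → κ u = ∏ i ∈ units p s,
        (1 - ψ (c * ((i : ℚ_[p]) ^ 2 / (p : ℚ_[p]) ^ (2 * s))))) ∧
      (∀ u, ‖u‖ = (p : ℝ) ^ j → κ u = 0) := by
  have hp : p.Prime := Fact.out
  have hp0 : (p : ℚ_[p]) ≠ 0 := by exact_mod_cast hp.ne_zero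
  have hpr : (0 : ℝ) < p := by exact_mod_cast hp.pos
  have hp1 : (1 : ℝ) < p := by exact_mod_cast hp.one_lt
  obtain ⟨e, rfl⟩ : ∃ e, j = 2 * s + e := ⟨j - 2 * s, by omega⟩
  -- quadratic polynomial: `((p^j u - i)/p^s)^2`
  set A : ℚ_[p] := (p : ℚ_[p]) ^ (2 * s + 2 * e) with hA
  have hpsplit : ∀ i : ℕ, ∀ u : ℚ_[p],
      A * u ^ 2 + (-(2 * i * (p : ℚ_[p]) ^ e)) * u + (i : ℚ_[p]) ^ 2 / (p : ℚ_[p]) ^ (2 * s) =
      (((p : ℚ_[p]) ^ (2 * s + e) * u - i) / (p : ℚ_[p]) ^ s) ^ 2 := by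
    intro i u
    rw [hA]
    field_simp
    ring
  refine ⟨fun u => ∏ i ∈ units p s, (1 - ψ (c * (A * u ^ 2 + (-(2 * i * (p : ℚ_[p]) ^ e)) * u +
    (i : ℚ_[p]) ^ 2 / (p : ℚ_[p]) ^ (2 * s)))), ?_, ?_, ?_⟩
  · apply Ctr.prod
    intro i _
    refine Ctr.sub (Ctr.one ψ c) (Ctr.chirp _ _ _ ?_)
    rw [hA, norm_pow, Padic.norm_p]
    exact pow_le_one₀ (by positivity) (inv_le_one_of_one_le₀ hp1.le)
  · intro u hu
    apply Finset.prod_congr rfl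
    intro i _
    congr 1
    apply char_congr ψ c hc
    have h1 : A * u ^ 2 + (-(2 * i * (p : ℚ_[p]) ^ e)) * u + (i : ℚ_[p]) ^ 2 / (p : ℚ_[p]) ^ (2 * s) -
        (i : ℚ_[p]) ^ 2 / (p : ℚ_[p]) ^ (2 * s) =
        A * u ^ 2 + (((-2 * i : ℤ) : ℚ_[p]) * (p : ℚ_[p]) ^ e) * u := by push_cast; ring
    rw [h1]
    refine (Padic.nonarchimedean _ _).trans (max_le ?_ ?_)
    · rw [norm_mul, norm_pow u, hA, norm_pow, Padic.norm_p]
      have h2 : ((p : ℝ)⁻¹) ^ (2 * s + 2 * e) ≤ 1 :=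
        pow_le_one₀ (by positivity) (inv_le_one_of_one_le₀ hp1.le)
      have h3 : ‖u‖ ^ 2 ≤ 1 := pow_le_one₀ (norm_nonneg _) hu
      exact mul_le_one₀ h2 (by positivity) h3
    · rw [norm_mul, norm_mul, norm_pow, Padic.norm_p]
      have h2 : ((p : ℝ)⁻¹) ^ e ≤ 1 :=
        pow_le_one₀ (by positivity) (inv_le_one_of_one_le₀ hp1.le)
      have h4 := Padic.norm_int_le_one (p := p) (-2 * i : ℤ)
      exact mul_le_one₀ (mul_le_one₀ h4 (by positivity) h2) (norm_nonneg _) hu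
  · intro u hu
    -- `k = p^j u` is a unit
    have hk : ‖(p : ℚ_[p]) ^ (2 * s + e) * u‖ = 1 := by
      rw [norm_mul, hu, norm_pow, Padic.norm_p, ← mul_pow, inv_mul_cancel₀ hpr.ne', one_pow]
    obtain ⟨i, hi, hik⟩ := exists_nat_approx _ hk.le s
    have hicop : (p ^ s).Coprime i := by
      rw [Nat.coprime_pow_left_iff (Nat.pos_of_ne_zero hs)]
      rw [Nat.Prime.coprime_iff_not_dvd hp]
      intro hdvd
      have h1 : ‖(i : ℚ_[p])‖ < 1 := Padic.norm_natCast_lt_one_iff.2 hdvd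
      have h2 : ‖(p : ℚ_[p]) ^ (2 * s + e) * u - (i : ℚ_[p])‖ < 1 := by
        refine lt_of_le_of_lt hik ?_
        exact pow_lt_one₀ (by positivity) (inv_lt_one_of_one_lt₀ hp1) hs
      have h3 : ‖(p : ℚ_[p]) ^ (2 * s + e) * u‖ < 1 := by
        have h4 := Padic.nonarchimedean ((p : ℚ_[p]) ^ (2 * s + e) * u - (i : ℚ_[p])) (i : ℚ_[p])
        rw [sub_add_cancel] at h4
        exact lt_of_le_of_lt h4 (max_lt h2 h1)
      linarith
    apply Finset.prod_eq_zero (i := i)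
    · exact Finset.mem_filter.2 ⟨Finset.mem_range.2 hi, hicop⟩
    · rw [sub_eq_zero]
      symm
      rw [hpsplit, hc, norm_pow, norm_div, norm_pow, Padic.norm_p]
      apply pow_le_one₀ (by positivity)
      rw [div_le_one (by positivity)]
      exact hik

theorem exists_kappa [IsUltrametricDist K] (ψ : AddChar ℚ_[p] K) (c : ℚ_[p])
    (hc : ∀ x : ℚ_[p], ψ (c * x) = 1 ↔ ‖x‖ ≤ 1) (hpK : ‖(p : K)‖ = (p : ℝ)⁻¹) (m : ℕ) :
    ∃ (κ : ℚ_[p] → K) (ε : K), Ctr ψ c κ ∧ (∀ u, ‖u‖ ≤ 1 → κ u = ε) ∧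
      (∀ u, 1 < ‖u‖ → ‖u‖ ≤ (p : ℝ) ^ (2 * m + 1) → κ u = 0) ∧
      ((p : ℝ)⁻¹) ^ (1 + 2 * ∑ s ∈ Finset.range m, (((p ^ (s + 1) : ℕ) : ℝ)⁻¹)) ≤ ‖ε‖ := by
  have hp : p.Prime := Fact.out
  have hpr : (0 : ℝ) < p := by exact_mod_cast hp.pos
  have hp1 : (1 : ℝ) < p := by exact_mod_cast hp.one_lt
  induction m with
  | zero =>
    refine ⟨fun u => ∑ b ∈ Finset.range p, ψ (c * (0 * u ^ 2 + (b : ℚ_[p]) * u + 0)), (p : K),
      ?_, ?_, ?_, ?_⟩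
    · exact Ctr.sum _ _ (fun b _ => Ctr.chirp 0 (b : ℚ_[p]) 0 (by simp))
    · intro u hu
      have h1 : ∀ b ∈ Finset.range p, ψ (c * (0 * u ^ 2 + (b : ℚ_[p]) * u + 0)) = 1 := by
        intro b _
        rw [hc, zero_mul, zero_add, add_zero, norm_mul]
        have h2 := Padic.norm_int_le_one (p := p) (b : ℤ)
        have h3 : ‖(b : ℚ_[p])‖ ≤ 1 := by exact_mod_cast h2
        exact mul_le_one₀ h3 (norm_nonneg _) hu
      simp only []
      rw [Finset.sum_congr rfl h1]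
      simp
    · intro u hu1 hu2
      have h1 : ∀ b ∈ Finset.range p, ψ (c * (0 * u ^ 2 + (b : ℚ_[p]) * u + 0)) = ψ (c * u) ^ b := by
        intro b _
        rw [← AddChar.map_nsmul_eq_pow, nsmul_eq_mul]
        congr 1; ring
      simp only []
      rw [Finset.sum_congr rfl h1]
      have h2 : ψ (c * u) ≠ 1 := by
        intro hcon
        have := (hc u).1 hcon
        linarith
      have h3 : ψ (c * u) ^ p = 1 := by
        rw [← AddChar.map_nsmul_eq_pow, nsmul_eq_mul]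
        have h4 : (p : ℚ_[p]) * (c * u) = c * (p * u) := by ring
        rw [h4, hc, norm_mul, Padic.norm_p]
        simp only [mul_zero, zero_add, pow_one] at hu2
        rw [inv_mul_le_iff₀ hpr, mul_one]
        exact hu2
      have h4 := mul_neg_geom_sum (ψ (c * u)) p
      rw [h3, sub_self] at h4
      rcases mul_eq_zero.1 h4 with h5 | h5
      · exact absurd (sub_eq_zero.1 h5).symm h2
      · exact h5
    · simp [hpK]
  | succ m ih =>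
    obtain ⟨κ, ε, hκ, h1, h2, h3⟩ := ih
    obtain ⟨κ₁, hκ₁, h11, h12⟩ := exists_factor ψ c hc (m + 1) (2 * m + 2) (by omega) (by omega)
    obtain ⟨κ₂, hκ₂, h21, h22⟩ := exists_factor ψ c hc (m + 1) (2 * m + 3) (by omega) (by omega)
    set η : K := ∏ i ∈ units p (m + 1),
      (1 - ψ (c * ((i : ℚ_[p]) ^ 2 / (p : ℚ_[p]) ^ (2 * (m + 1))))) with hη
    have hηn := eps_norm ψ c hc hpK (m + 1) (by omega)
    rw [← hη] at hηn
    refine ⟨fun u => κ u * (κ₁ u * κ₂ u), ε * (η * η), Ctr.mul _ _ hκ (Ctr.mul _ _ hκ₁ hκ₂), ?_, ?_, ?_⟩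
    · intro u hu
      simp only [h1 u hu, h11 u hu, h21 u hu]
    · intro u hu1 hu2
      obtain ⟨j, hj1, hj⟩ := norm_eq_pow_of_one_lt u hu1
      rw [hj] at hu2
      have hj2 : j ≤ 2 * (m + 1) + 1 := (pow_le_pow_iff_right₀ hp1).1 hu2
      have hcase : j ≤ 2 * m + 1 ∨ j = 2 * m + 2 ∨ j = 2 * m + 3 := by omega
      rcases hcase with hc1 | hc1 | hc1
      · simp only [h2 u hu1 (by rw [hj]; exact pow_le_pow_right₀ hp1.le hc1), zero_mul]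
      · simp only [h12 u (by rw [hj, hc1]), zero_mul, mul_zero]
      · simp only [h22 u (by rw [hj, hc1]), mul_zero]
    · have hpi : (0 : ℝ) < (p : ℝ)⁻¹ := by positivity
      rw [Finset.sum_range_succ, norm_mul, norm_mul, hηn]
      have h5 : (1 + 2 * (∑ s ∈ Finset.range m, (((p ^ (s + 1) : ℕ) : ℝ)⁻¹) +
          (((p ^ (m + 1) : ℕ) : ℝ)⁻¹))) =
          (1 + 2 * ∑ s ∈ Finset.range m, (((p ^ (s + 1) : ℕ) : ℝ)⁻¹)) +
          ((((p ^ (m + 1) : ℕ) : ℝ)⁻¹) + (((p ^ (m + 1) : ℕ) : ℝ)⁻¹)) := by ring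
      rw [h5, Real.rpow_add hpi _ ((((p ^ (m + 1) : ℕ) : ℝ)⁻¹) + (((p ^ (m + 1) : ℕ) : ℝ)⁻¹)),
        Real.rpow_add hpi (((p ^ (m + 1) : ℕ) : ℝ)⁻¹)]
      exact mul_le_mul_of_nonneg_right h3 (by positivity)

theorem geom_le_one (p m : ℕ) (hp : 2 ≤ p) :
    ∑ s ∈ Finset.range m, (((p ^ (s + 1) : ℕ) : ℝ)⁻¹) ≤ 1 := by
  have h1 : ∑ s ∈ Finset.range m, (((p ^ (s + 1) : ℕ) : ℝ)⁻¹) ≤
      ∑ s ∈ Finset.range m, ((1 : ℝ) / 2) ^ (s + 1) := by
    apply Finset.sum_le_sum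
    intro s _
    rw [one_div, inv_pow]
    push_cast
    apply inv_anti₀ (by positivity)
    exact pow_le_pow_left₀ (by norm_num) (by exact_mod_cast hp) _
  have h2 : ∑ s ∈ Finset.range m, ((1 : ℝ) / 2) ^ (s + 1) = 1 - (1 / 2) ^ m := by
    induction m with
    | zero => simp
    | succ m ih =>
      rw [Finset.sum_range_succ, ih]
      · ring
      · apply Finset.sum_le_sum
        intro s _
        rw [one_div, inv_pow]
        push_cast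
        apply inv_anti₀ (by positivity)
        exact pow_le_pow_left₀ (by norm_num) (by exact_mod_cast hp) _
  rw [h2] at h1
  have h3 : (0 : ℝ) ≤ (1 / 2) ^ m := by positivity
  linarith

/-- For every radius there is a function in the class `Ctr` that is a constant of absolute value
`≥ p^{-3}` on `ℤ_p` and vanishes on the rest of the ball of that radius. -/
theorem exists_kappa' [IsUltrametricDist K] (ψ : AddChar ℚ_[p] K) (c : ℚ_[p])
    (hc : ∀ x : ℚ_[p], ψ (c * x) = 1 ↔ ‖x‖ ≤ 1) (hpK : ‖(p : K)‖ = (p : ℝ)⁻¹) (m : ℕ) :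
    ∃ (κ : ℚ_[p] → K) (ε : K), Ctr ψ c κ ∧ (∀ u, ‖u‖ ≤ 1 → κ u = ε) ∧
      (∀ u, 1 < ‖u‖ → ‖u‖ ≤ (p : ℝ) ^ m → κ u = 0) ∧ ((p : ℝ)⁻¹) ^ 3 ≤ ‖ε‖ := by
  have hp : p.Prime := Fact.out
  have hp1 : (1 : ℝ) < p := by exact_mod_cast hp.one_lt
  obtain ⟨κ, ε, h1, h2, h3, h4⟩ := exists_kappa ψ c hc hpK m
  refine ⟨κ, ε, h1, h2, fun u hu1 hu2 => h3 u hu1 (hu2.trans ?_), le_trans ?_ h4⟩
  · exact pow_le_pow_right₀ hp1.le (by omega)
  · rw [← Real.rpow_natCast]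
    apply Real.rpow_le_rpow_of_exponent_ge (by positivity) (inv_le_one_of_one_le₀ hp1.le)
    have := geom_le_one p m hp.two_le
    have h5 : ((3 : ℕ) : ℝ) = 3 := by norm_num
    rw [h5]
    linarith

end Kappa2

end Pool.Agent.Helper86.MaxNorm
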