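import Pool.Agent.Helper86.MaxNorm.Fourier

open scoped Matrix

noncomputable section

namespace Pool.Agent.Helper86.MaxNorm

section Main

variable {p : ℕ} [Fact p.Prime] {d : ℕ} {K : Type} [NormedField K]

theorem IsNorm.zero {N : Sch p d K → ℝ} (hN : IsNorm N) : N 0 = 0 := by
  have := hN.smul 0 0
  rwa [zero_smul, norm_zero, zero_mul] at this

theorem IsNorm.sum_le {N : Sch p d K → ℝ} (hN : IsNorm N) {ι : Type*} (s : Finset ι)
    (f : ι → Sch p d K) (B : ℝ) (hB : 0 ≤ B) (h : ∀ i ∈ s, N (f i) ≤ B) : N (∑ i ∈ s, f i) ≤ B := by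
  classical
  induction s using Finset.induction_on with
  | empty => rw [Finset.sum_empty, hN.zero]; exact hB
  | insert a s ha ih =>
    rw [Finset.sum_insert ha]
    exact (hN.add_le _ _).trans
      (max_le (h a (Finset.mem_insert_self a s)) (ih fun i hi => h i (Finset.mem_insert_of_mem hi)))

/-- a function invariant under `ℤ_p^d` is a combination of translates of `𝟏`. -/
theorem combination (ψ : AddChar ℚ_[p] K) (hψ : IsOpen {x : ℚ_[p] | ψ x = 1}) (G : Sch p d K)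
    (hG : ∀ ξ h : Fin d → ℚ_[p], (∀ i, ‖h i‖ ≤ 1) →
      (G : (Fin d → ℚ_[p]) → K) (ξ + h) = (G : (Fin d → ℚ_[p]) → K) ξ) :
    ∃ n : ℕ, G = ∑ k : Fin d → Fin (p ^ (n + 0)), (G : (Fin d → ℚ_[p]) → K) (pt p d n 0 k) •
      rho ψ hψ (Sum.elim (-pt p d n 0 k) 0) 0 (one p d K) := by
  classical
  obtain ⟨n, hn1, -⟩ := exists_level G
  refine ⟨n, ?_⟩
  apply Subtype.ext
  funext x
  rw [Submodule.coe_sum, Finset.sum_apply]
  have h2 := sum_cosets n 0 x ((G : (Fin d → ℚ_[p]) → K) x) (hn1 x)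
  rw [← h2]
  refine Finset.sum_congr rfl fun k _ => ?_
  rw [Submodule.coe_smul, Pi.smul_apply, rho_trans, smul_eq_mul, pow_zero]
  by_cases h3 : ∀ i, ‖x i - pt p d n 0 k i‖ ≤ 1
  · rw [if_pos h3, one_apply_of_mem, mul_one]
    · have h4 := hG (pt p d n 0 k) (x - pt p d n 0 k) (by intro i; exact h3 i)
      rw [add_sub_cancel] at h4
      exact h4
    · intro i
      have := h3 i
      simpa [sub_eq_add_neg] using this
  · rw [if_neg h3, one_apply_of_notMem, mul_zero]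
    intro h
    apply h3
    intro i
    have := h i
    simpa [sub_eq_add_neg] using this

/-- Functions supported in `ℤ_p^d`: any invariant norm is bounded by the sup norm of the Fourier
transform. -/
theorem norm_le_of_support [IsUltrametricDist K] [CharZero K] (ψ : AddChar ℚ_[p] K)
    (hψ : IsOpen {x : ℚ_[p] | ψ x = 1})
    (hbdd : ∀ f : Sch p d K, BddAbove (grassValues ψ hψ f)) (c : ℚ_[p])
    (hc0 : c ≠ 0) (hc : ∀ x : ℚ_[p], ψ (c * x) = 1 ↔ ‖x‖ ≤ 1) (hpK : ‖(p : K)‖ = (p : ℝ)⁻¹)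
    (N : Sch p d K → ℝ) (hN : IsNorm N) (hI : IsInvariant ψ hψ N) (F : Sch p d K)
    (hF : ∀ x : Fin d → ℚ_[p], ¬ (∀ i, ‖x i‖ ≤ 1) → (F : (Fin d → ℚ_[p]) → K) x = 0) :
    N F ≤ N (one p d K) * NG ψ hψ F := by
  obtain ⟨T, hT, hT1, hT4, hTs⟩ := exists_fourier (d := d) ψ hψ c hc0 hc hpK
  obtain ⟨n, hn⟩ := combination ψ hψ (T F) (hTs F hF)
  have h1 : F = T (T (T (T F))) := (hT4 F).symm
  rw [hn] at h1
  simp only [map_sum, map_smul] at h1
  have h2 : N F ≤ supNorm (T F) * N (one p d K) := by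
    refine (congrArg N h1).trans_le ?_
    apply hN.sum_le _ _ _ (mul_nonneg (supNorm_nonneg _) (hN.nonneg _))
    intro k _
    rw [hN.smul, hT _ 0, hT1, hT _ 0, hT1, hT _ 0, hT1, hI]
    exact mul_le_mul_of_nonneg_right (le_supNorm _ _) (hN.nonneg _)
  have h3 := le_NG ψ hψ F (hbdd F) (fmat c) (fmat_mem c hc0) T hT
  rw [hT1, supNorm_one, div_one] at h3
  rw [mul_comm]
  exact h2.trans (mul_le_mul_of_nonneg_right h3 (hN.nonneg _))

theorem main [IsUltrametricDist K] [CharZero K] (ψ : AddChar ℚ_[p] K)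
    (hψ : IsOpen {x : ℚ_[p] | ψ x = 1}) (hψ1 : ψ ≠ 1) (hpK : ‖(p : K)‖ = (p : ℝ)⁻¹) :
    (∀ f : Sch p d K, BddAbove (grassValues ψ hψ f)) ∧ IsNorm (NG (d := d) ψ hψ) ∧
      IsInvariant ψ hψ (NG (d := d) ψ hψ) ∧
      ∀ N : Sch p d K → ℝ, IsNorm N → IsInvariant ψ hψ N →
        ∀ f, N f ≤ (N (one p d K) * ((p : ℝ) ^ 3) ^ d) * NG ψ hψ f := by
  classical
  obtain ⟨c, hc0, hc⟩ := char_kernel ψ hψ hψ1
  have hbdd : ∀ f : Sch p d K, BddAbove (grassValues ψ hψ f) :=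
    bddAbove_grassValues ψ hψ c hc hpK
  have hNG := NG_isNorm ψ hψ hbdd
  have hIG := NG_isInvariant (d := d) ψ hψ
  refine ⟨hbdd, hNG, hIG, ?_⟩
  intro N hN hI f
  have hpr : (0 : ℝ) < p := by exact_mod_cast (Fact.out : p.Prime).pos
  -- pieces supported in `ℤ_p^d`
  have hpiece : ∀ g : Sch p d K, ∃ F : Sch p d K,
      (∀ x : Fin d → ℚ_[p], (F : (Fin d → ℚ_[p]) → K) x =
        if ∀ i, ‖x i‖ ≤ 1 then (g : (Fin d → ℚ_[p]) → K) x else 0) := by
    intro g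
    refine ⟨⟨fun x => (one p d K : (Fin d → ℚ_[p]) → K) x * (g : (Fin d → ℚ_[p]) → K) x,
      (one p d K).2.1.mul g.2.1, g.2.2.mul_left⟩, fun x => ?_⟩
    simp only
    by_cases hx : ∀ i, ‖x i‖ ≤ 1
    · rw [one_apply_of_mem x hx, if_pos hx, one_mul]
    · rw [one_apply_of_notMem x hx, if_neg hx, zero_mul]
  choose P hP using hpiece
  have hPle : ∀ g : Sch p d K, N (P g) ≤ (N (one p d K) * ((p : ℝ) ^ 3) ^ d) * NG ψ hψ g := by
    intro g
    have h1 := norm_le_of_support ψ hψ hbdd c hc0 hc hpK N hN hI (P g) (fun x hx => by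
      rw [hP, if_neg hx])
    have h2 := NG_cut ψ hψ hbdd c hc hpK g (P g) (fun x hx => by rw [hP, if_pos hx])
      (fun x hx => by rw [hP, if_neg hx])
    rw [mul_assoc]
    exact h1.trans (mul_le_mul_of_nonneg_left h2 (hN.nonneg _))
  obtain ⟨n, hn1, -⟩ := exists_level f
  have hdec : f = ∑ k : Fin d → Fin (p ^ (n + 0)),
      rho ψ hψ (Sum.elim (-pt p d n 0 k) 0) 0 (P (rho ψ hψ (Sum.elim (pt p d n 0 k) 0) 0 f)) := by
    apply Subtype.ext
    funext x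
    rw [Submodule.coe_sum, Finset.sum_apply]
    have h2 := sum_cosets n 0 x ((f : (Fin d → ℚ_[p]) → K) x) (hn1 x)
    rw [← h2]
    refine Finset.sum_congr rfl fun k _ => ?_
    rw [rho_trans, hP, rho_trans, pow_zero, neg_add_cancel_right]
    have h3 : (∀ i, ‖x i - pt p d n 0 k i‖ ≤ 1) = ∀ i, ‖(x + -pt p d n 0 k) i‖ ≤ 1 := by
      simp only [Pi.add_apply, Pi.neg_apply, sub_eq_add_neg]
    simp only [h3]
  rw [hdec]
  refine hN.sum_le _ _ _ ?_ ?_
  · exact mul_nonneg (mul_nonneg (hN.nonneg _) (by positivity)) (hNG.nonneg _)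
  · intro k _
    rw [hI]
    refine (hPle _).trans ?_
    rw [hIG, ← hdec]

end Main

end Pool.Agent.Helper86.MaxNorm
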