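import Pool.Agent.Helper86.MaxNorm.Basic

open scoped Matrix

noncomputable section

namespace Pool.Agent.Helper86.MaxNorm

section Spanning

variable {p : ℕ} [Fact p.Prime] {d : ℕ} {K : Type} [NormedField K]

/-- the translates-and-modulations of `𝟏`. -/
def orb (ψ : AddChar ℚ_[p] K) (hψ : IsOpen {x : ℚ_[p] | ψ x = 1}) : Set (Sch p d K) :=
  Set.range fun w : Fin d ⊕ Fin d → ℚ_[p] => rho ψ hψ w 0 (one p d K)

theorem rho_mem_span (ψ : AddChar ℚ_[p] K) (hψ : IsOpen {x : ℚ_[p] | ψ x = 1})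
    (w : Fin d ⊕ Fin d → ℚ_[p]) (t : ℚ_[p]) (f : Sch p d K)
    (hf : f ∈ Submodule.span K (orb (d := d) ψ hψ)) :
    rho ψ hψ w t f ∈ Submodule.span K (orb (d := d) ψ hψ) := by
  induction hf using Submodule.span_induction with
  | mem f hf =>
    obtain ⟨w', rfl⟩ := hf
    simp only
    rw [rho_rho]
    exact Submodule.smul_mem _ _ (Submodule.subset_span ⟨w + w', rfl⟩)
  | zero => rw [map_zero]; exact Submodule.zero_mem _
  | add f g _ _ hf hg => rw [map_add]; exact Submodule.add_mem _ hf hg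
  | smul a f _ hf => rw [map_smul]; exact Submodule.smul_mem _ _ hf

theorem rho_zero_zero (ψ : AddChar ℚ_[p] K) (hψ : IsOpen {x : ℚ_[p] | ψ x = 1})
    (f : Sch p d K) : rho ψ hψ 0 0 f = f := by
  apply Subtype.ext
  funext x
  rw [rho_apply]
  have e1 : (0 : Fin d ⊕ Fin d → ℚ_[p]) ∘ Sum.inl = 0 := rfl
  have e2 : (0 : Fin d ⊕ Fin d → ℚ_[p]) ∘ Sum.inr = 0 := rfl
  rw [e1, e2]
  simp

theorem pK_ne_zero (hpK : ‖(p : K)‖ = (p : ℝ)⁻¹) : (p : K) ≠ 0 := by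
  intro h
  rw [h, norm_zero] at hpK
  have : (0 : ℝ) < (p : ℝ)⁻¹ := by
    have : (0 : ℝ) < p := by exact_mod_cast (Fact.out : p.Prime).pos
    positivity
  linarith

/-- the character sum in one variable. -/
theorem char_sum (ψ : AddChar ℚ_[p] K) (c : ℚ_[p])
    (hc : ∀ x : ℚ_[p], ψ (c * x) = 1 ↔ ‖x‖ ≤ 1) (hpK : ‖(p : K)‖ = (p : ℝ)⁻¹) (n : ℕ)
    (x : ℚ_[p]) (hx : ‖x‖ ≤ 1) :
    ((p : K) ^ n)⁻¹ * ∑ b ∈ Finset.range (p ^ n), ψ (c * ((b : ℚ_[p]) / (p : ℚ_[p]) ^ n * x)) =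
      (open Classical in if ‖x‖ ≤ ((p : ℝ)⁻¹) ^ n then 1 else 0) := by
  have hp0 : (p : ℚ_[p]) ≠ 0 := by exact_mod_cast (Fact.out : p.Prime).ne_zero
  have hpr : (0 : ℝ) < p := by exact_mod_cast (Fact.out : p.Prime).pos
  have hpk := pK_ne_zero (K := K) hpK
  have h1 : ∀ b : ℕ, ψ (c * ((b : ℚ_[p]) / (p : ℚ_[p]) ^ n * x)) =
      (ψ (c * (x / (p : ℚ_[p]) ^ n))) ^ b := by
    intro b
    rw [← AddChar.map_nsmul_eq_pow, nsmul_eq_mul]
    congr 1; ring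
  rw [Finset.sum_congr rfl (fun b _ => h1 b)]
  set ζ := ψ (c * (x / (p : ℚ_[p]) ^ n)) with hζ
  have h2 : ζ = 1 ↔ ‖x‖ ≤ ((p : ℝ)⁻¹) ^ n := by
    rw [hζ, hc, norm_div, norm_pow, Padic.norm_p, div_le_one (by positivity)]
  by_cases hx' : ‖x‖ ≤ ((p : ℝ)⁻¹) ^ n
  · rw [if_pos hx', h2.2 hx']
    simp only [one_pow, Finset.sum_const, Finset.card_range, nsmul_eq_mul, mul_one, Nat.cast_pow]
    exact inv_mul_cancel₀ (pow_ne_zero _ hpk)
  · rw [if_neg hx']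
    have h3 : ζ ≠ 1 := fun h => hx' (h2.1 h)
    have h4 : ζ ^ (p ^ n) = 1 := by
      rw [hζ, ← h1, hc]
      push_cast
      rw [div_self (pow_ne_zero _ hp0), one_mul]
      exact hx
    rw [geom_sum_eq h3, h4, sub_self, zero_div, mul_zero]

open Classical in
theorem exists_cyl (ψ : AddChar ℚ_[p] K) (hψ : IsOpen {x : ℚ_[p] | ψ x = 1}) (c : ℚ_[p])
    (hc : ∀ x : ℚ_[p], ψ (c * x) = 1 ↔ ‖x‖ ≤ 1) (hpK : ‖(p : K)‖ = (p : ℝ)⁻¹) (n : ℕ)
    (s : Finset (Fin d)) : ∃ f ∈ Submodule.span K (orb (d := d) ψ hψ), ∀ x : Fin d → ℚ_[p],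
      (f : (Fin d → ℚ_[p]) → K) x =
        if (∀ i, ‖x i‖ ≤ 1) ∧ ∀ i ∈ s, ‖x i‖ ≤ ((p : ℝ)⁻¹) ^ n then 1 else 0 := by
  induction s using Finset.induction_on with
  | empty =>
    refine ⟨one p d K, ?_, fun x => ?_⟩
    · apply Submodule.subset_span
      exact ⟨0, rho_zero_zero ψ hψ _⟩
    · by_cases hx : ∀ i, ‖x i‖ ≤ 1
      · rw [one_apply_of_mem x hx, if_pos ⟨hx, by simp⟩]
      · rw [one_apply_of_notMem x hx, if_neg (fun h => hx h.1)]
  | insert l s _ ih =>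
    obtain ⟨f, hf, hfx⟩ := ih
    refine ⟨((p : K) ^ n)⁻¹ • ∑ b ∈ Finset.range (p ^ n),
      rho ψ hψ (Sum.elim 0 (Pi.single l (c * ((b : ℚ_[p]) / (p : ℚ_[p]) ^ n)))) 0 f, ?_, fun x => ?_⟩
    · apply Submodule.smul_mem
      apply Submodule.sum_mem
      intro b _
      exact rho_mem_span ψ hψ _ _ _ hf
    · rw [Submodule.coe_smul, Pi.smul_apply, Submodule.coe_sum, Finset.sum_apply]
      simp only [rho_mod, single_dotProduct, smul_eq_mul]
      rw [← Finset.sum_mul, ← mul_assoc, hfx]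
      by_cases hx : ∀ i, ‖x i‖ ≤ 1
      · have h1 := char_sum ψ c hc hpK n (x l) (hx l)
        have h2 : ∑ b ∈ Finset.range (p ^ n), ψ (c * ((b : ℚ_[p]) / (p : ℚ_[p]) ^ n) * x l) =
            ∑ b ∈ Finset.range (p ^ n), ψ (c * ((b : ℚ_[p]) / (p : ℚ_[p]) ^ n * x l)) := by
          refine Finset.sum_congr rfl fun b _ => ?_
          rw [mul_assoc]
        rw [h2, h1]
        by_cases h3 : ‖x l‖ ≤ ((p : ℝ)⁻¹) ^ n
        · rw [if_pos h3, one_mul]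
          by_cases h4 : ∀ i ∈ s, ‖x i‖ ≤ ((p : ℝ)⁻¹) ^ n
          · rw [if_pos ⟨hx, h4⟩, if_pos]
            refine ⟨hx, fun i hi => ?_⟩
            rcases Finset.mem_insert.1 hi with rfl | hi
            · exact h3
            · exact h4 i hi
          · rw [if_neg (fun h => h4 h.2), if_neg]
            exact fun h => h4 fun i hi => h.2 i (Finset.mem_insert_of_mem hi)
        · rw [if_neg h3, zero_mul, if_neg]
          exact fun h => h3 (h.2 l (Finset.mem_insert_self l s))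
      · rw [if_neg (fun h => hx h.1), mul_zero, if_neg (fun h => hx h.1)]

open Classical in
/-- indicator functions of small polydiscs lie in the span of the orbit of `𝟏`. -/
theorem exists_coset (ψ : AddChar ℚ_[p] K) (hψ : IsOpen {x : ℚ_[p] | ψ x = 1}) (c : ℚ_[p])
    (hc : ∀ x : ℚ_[p], ψ (c * x) = 1 ↔ ‖x‖ ≤ 1) (hpK : ‖(p : K)‖ = (p : ℝ)⁻¹) (n : ℕ)
    (a : Fin d → ℚ_[p]) : ∃ f ∈ Submodule.span K (orb (d := d) ψ hψ), ∀ x : Fin d → ℚ_[p],
      (f : (Fin d → ℚ_[p]) → K) x =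
        if ∀ i, ‖x i - a i‖ ≤ ((p : ℝ)⁻¹) ^ n then 1 else 0 := by
  obtain ⟨f, hf, hfx⟩ := exists_cyl (d := d) ψ hψ c hc hpK n Finset.univ
  refine ⟨rho ψ hψ (Sum.elim (-a) 0) 0 f, rho_mem_span ψ hψ _ _ _ hf, fun x => ?_⟩
  rw [rho_trans, hfx]
  have hp1 : (1 : ℝ) < p := by exact_mod_cast (Fact.out : p.Prime).one_lt
  congr 1
  apply propext
  constructor
  · intro h i
    have := h.2 i (Finset.mem_univ i)
    simpa [sub_eq_add_neg] using this
  · intro h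
    have h2 : ∀ i, ‖(x + -a) i‖ ≤ ((p : ℝ)⁻¹) ^ n := by
      intro i
      simpa [sub_eq_add_neg] using h i
    exact ⟨fun i => (h2 i).trans (pow_le_one₀ (by positivity) (inv_le_one_of_one_le₀ hp1.le)),
      fun i _ => h2 i⟩

theorem span_orb (ψ : AddChar ℚ_[p] K) (hψ : IsOpen {x : ℚ_[p] | ψ x = 1}) (c : ℚ_[p])
    (hc : ∀ x : ℚ_[p], ψ (c * x) = 1 ↔ ‖x‖ ≤ 1) (hpK : ‖(p : K)‖ = (p : ℝ)⁻¹) :
    Submodule.span K (orb (d := d) ψ hψ) = ⊤ := by
  classical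
  rw [eq_top_iff]
  rintro f -
  obtain ⟨n, hn1, hn2⟩ := exists_level f
  choose G hG hGx using exists_coset (d := d) ψ hψ c hc hpK n
  have h1 : f = ∑ k : Fin d → Fin (p ^ (n + n)),
      (f : (Fin d → ℚ_[p]) → K) (pt p d n n k) • G (pt p d n n k) := by
    apply Subtype.ext
    funext x
    rw [Submodule.coe_sum, Finset.sum_apply]
    have h2 := sum_cosets n n x ((f : (Fin d → ℚ_[p]) → K) x) (hn1 x)
    rw [← h2]
    refine Finset.sum_congr rfl fun k _ => ?_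
    rw [Submodule.coe_smul, Pi.smul_apply, hGx, smul_eq_mul]
    by_cases h3 : ∀ i, ‖x i - pt p d n n k i‖ ≤ ((p : ℝ)⁻¹) ^ n
    · rw [if_pos h3, if_pos h3, mul_one]
      have h4 := hn2 (pt p d n n k) (x - pt p d n n k) (by intro i; exact h3 i)
      rw [add_sub_cancel] at h4
      exact h4
    · rw [if_neg h3, if_neg h3, mul_zero]
  rw [h1]
  apply Submodule.sum_mem
  intro k _
  exact Submodule.smul_mem _ _ (hG _)

end Spanning

section Bdd

variable {p : ℕ} [Fact p.Prime] {d : ℕ} {K : Type} [NormedField K]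

theorem supNorm_pos (T : Sch p d K ≃ₗ[K] Sch p d K) : 0 < supNorm (T (one p d K)) := by
  rcases (supNorm_nonneg (T (one p d K))).lt_or_eq with h | h
  · exact h
  · exact absurd ((LinearEquiv.map_eq_zero_iff T).1 (supNorm_eq_zero _ h.symm)) one_ne_zero'

theorem exists_bound [IsUltrametricDist K] (ψ : AddChar ℚ_[p] K)
    (hψ : IsOpen {x : ℚ_[p] | ψ x = 1}) (f : Sch p d K)
    (hf : f ∈ Submodule.span K (orb (d := d) ψ hψ)) : ∃ B : ℝ, 0 ≤ B ∧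
      ∀ (g : Matrix (Fin d ⊕ Fin d) (Fin d ⊕ Fin d) ℚ_[p]) (T : Sch p d K ≃ₗ[K] Sch p d K),
        IsIntertwiner ψ hψ g T → supNorm (T f) ≤ B * supNorm (T (one p d K)) := by
  induction hf using Submodule.span_induction with
  | mem f hf =>
    obtain ⟨w, rfl⟩ := hf
    refine ⟨1, zero_le_one, fun g T hT => ?_⟩
    rw [hT w 0, supNorm_rho, one_mul]
  | zero =>
    refine ⟨0, le_rfl, fun g T hT => ?_⟩
    rw [map_zero, zero_mul]
    apply supNorm_le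
    intro x
    simp
  | add f g _ _ hf hg =>
    obtain ⟨B₁, hB₁, h1⟩ := hf
    obtain ⟨B₂, hB₂, h2⟩ := hg
    refine ⟨max B₁ B₂, le_max_of_le_left hB₁, fun g T hT => ?_⟩
    rw [map_add]
    refine (supNorm_add_le _ _).trans (max_le ?_ ?_)
    · exact (h1 g T hT).trans (mul_le_mul_of_nonneg_right (le_max_left _ _) (supNorm_nonneg _))
    · exact (h2 g T hT).trans (mul_le_mul_of_nonneg_right (le_max_right _ _) (supNorm_nonneg _))
  | smul a f _ hf =>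
    obtain ⟨B₁, hB₁, h1⟩ := hf
    refine ⟨‖a‖ * B₁, by positivity, fun g T hT => ?_⟩
    rw [map_smul, supNorm_smul, mul_assoc]
    exact mul_le_mul_of_nonneg_left (h1 g T hT) (norm_nonneg _)

theorem bddAbove_grassValues [IsUltrametricDist K] (ψ : AddChar ℚ_[p] K)
    (hψ : IsOpen {x : ℚ_[p] | ψ x = 1}) (c : ℚ_[p])
    (hc : ∀ x : ℚ_[p], ψ (c * x) = 1 ↔ ‖x‖ ≤ 1) (hpK : ‖(p : K)‖ = (p : ℝ)⁻¹) (f : Sch p d K) :
    BddAbove (grassValues ψ hψ f) := by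
  obtain ⟨B, -, hB⟩ := exists_bound ψ hψ f (by rw [span_orb ψ hψ c hc hpK]; trivial)
  refine ⟨B, ?_⟩
  rintro _ ⟨g, -, T, hT, rfl⟩
  rw [div_le_iff₀ (supNorm_pos T)]
  exact hB g T hT

theorem isIntertwiner_refl (ψ : AddChar ℚ_[p] K) (hψ : IsOpen {x : ℚ_[p] | ψ x = 1}) :
    IsIntertwiner ψ hψ 1 (LinearEquiv.refl K (Sch p d K)) := by
  intro w t f
  simp

theorem supNorm_mem (ψ : AddChar ℚ_[p] K) (hψ : IsOpen {x : ℚ_[p] | ψ x = 1}) (f : Sch p d K) :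
    supNorm f ∈ grassValues ψ hψ f := by
  refine ⟨1, Submonoid.one_mem _, LinearEquiv.refl K _, isIntertwiner_refl ψ hψ, ?_⟩
  rw [LinearEquiv.refl_apply, LinearEquiv.refl_apply, supNorm_one, div_one]

theorem NG_le (ψ : AddChar ℚ_[p] K) (hψ : IsOpen {x : ℚ_[p] | ψ x = 1}) (f : Sch p d K) (B : ℝ)
    (h : ∀ g ∈ Matrix.symplecticGroup (Fin d) ℚ_[p], ∀ T : Sch p d K ≃ₗ[K] Sch p d K,
      IsIntertwiner ψ hψ g T → supNorm (T f) / supNorm (T (one p d K)) ≤ B) : NG ψ hψ f ≤ B := by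
  apply csSup_le ⟨_, supNorm_mem ψ hψ f⟩
  rintro _ ⟨g, hg, T, hT, rfl⟩
  exact h g hg T hT

theorem le_NG (ψ : AddChar ℚ_[p] K) (hψ : IsOpen {x : ℚ_[p] | ψ x = 1}) (f : Sch p d K)
    (hbdd : BddAbove (grassValues ψ hψ f))
    (g : Matrix (Fin d ⊕ Fin d) (Fin d ⊕ Fin d) ℚ_[p])
    (hg : g ∈ Matrix.symplecticGroup (Fin d) ℚ_[p]) (T : Sch p d K ≃ₗ[K] Sch p d K)
    (hT : IsIntertwiner ψ hψ g T) :
    supNorm (T f) / supNorm (T (one p d K)) ≤ NG ψ hψ f :=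
  le_csSup hbdd ⟨g, hg, T, hT, rfl⟩

theorem NG_isNorm [IsUltrametricDist K] (ψ : AddChar ℚ_[p] K)
    (hψ : IsOpen {x : ℚ_[p] | ψ x = 1}) (hbdd : ∀ f : Sch p d K, BddAbove (grassValues ψ hψ f)) :
    IsNorm (NG (d := d) ψ hψ) := by
  have hle : ∀ (a : K) (f : Sch p d K), NG ψ hψ (a • f) ≤ ‖a‖ * NG ψ hψ f := by
    intro a f
    apply NG_le
    intro g hg T hT
    rw [map_smul, supNorm_smul, mul_div_assoc]
    exact mul_le_mul_of_nonneg_left (le_NG ψ hψ f (hbdd f) g hg T hT) (norm_nonneg _)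
  refine ⟨?_, ?_, ?_, ?_⟩
  · intro f
    exact (supNorm_nonneg f).trans (le_csSup (hbdd f) (supNorm_mem ψ hψ f))
  · intro a f
    apply le_antisymm (hle a f)
    by_cases ha : a = 0
    · rw [ha, norm_zero, zero_mul]
      exact (supNorm_nonneg _).trans (le_csSup (hbdd _) (supNorm_mem ψ hψ _))
    · have h1 := hle a⁻¹ (a • f)
      rw [smul_smul, inv_mul_cancel₀ ha, one_smul, norm_inv] at h1
      have ha' : 0 < ‖a‖ := norm_pos_iff.2 ha
      rwa [← div_eq_inv_mul, le_div_iff₀' ha'] at h1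
  · intro f f'
    apply NG_le
    intro g hg T hT
    rw [map_add]
    have hpos := supNorm_pos T
    have h1 := le_NG ψ hψ f (hbdd f) g hg T hT
    have h2 := le_NG ψ hψ f' (hbdd f') g hg T hT
    rw [div_le_iff₀ hpos] at h1 h2 ⊢
    refine (supNorm_add_le _ _).trans (max_le ?_ ?_)
    · exact h1.trans (mul_le_mul_of_nonneg_right (le_max_left _ _) hpos.le)
    · exact h2.trans (mul_le_mul_of_nonneg_right (le_max_right _ _) hpos.le)
  · intro f hf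
    apply supNorm_eq_zero
    apply le_antisymm _ (supNorm_nonneg f)
    rw [← hf]
    exact le_csSup (hbdd f) (supNorm_mem ψ hψ f)

theorem NG_isInvariant (ψ : AddChar ℚ_[p] K) (hψ : IsOpen {x : ℚ_[p] | ψ x = 1}) :
    IsInvariant ψ hψ (NG (d := d) ψ hψ) := by
  intro w t f
  unfold NG
  congr 1
  ext r
  constructor
  · rintro ⟨g, hg, T, hT, rfl⟩
    exact ⟨g, hg, T, hT, by rw [hT w t, supNorm_rho]⟩
  · rintro ⟨g, hg, T, hT, rfl⟩
    exact ⟨g, hg, T, hT, by rw [hT w t, supNorm_rho]⟩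

end Bdd

end Pool.Agent.Helper86.MaxNorm
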